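import Pool.Agent.T9h94.Iso.Def

/-! # (M3) the variables of the formula of the reduction -/

set_option autoImplicit false

namespace Pool.Agent.T9h94.Iso.Red

open Pool.Agent.NPC Pool.Agent.NPC.ER Pool.Agent.NPC.H612
open Pool.Agent.NPC.R537HD (numT sqT subT)

/-! ## Terms -/

/-- the variables of a term are less than `n` -/
def TB (n : ℕ) (t : Tm) : Prop := ∀ i, Tok.var i ∈ t.toks → i < n

theorem TB.var {n i : ℕ} (h : i < n) : TB n (Tm.var i) := by
  intro j hj
  simp only [Tm.toks, List.mem_singleton, Tok.var.injEq] at hj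
  omega

theorem TB.zero (n : ℕ) : TB n Tm.zero := by
  intro j hj
  simp [Tm.toks] at hj

theorem TB.one (n : ℕ) : TB n Tm.one := by
  intro j hj
  simp [Tm.toks] at hj

theorem TB.add {n : ℕ} {s t : Tm} (hs : TB n s) (ht : TB n t) : TB n (Tm.add s t) := by
  intro j hj
  simp only [Tm.toks, List.mem_append, List.mem_singleton, reduceCtorEq, or_false] at hj
  rcases hj with h | h
  · exact hs j h
  · exact ht j h

theorem TB.mul {n : ℕ} {s t : Tm} (hs : TB n s) (ht : TB n t) : TB n (Tm.mul s t) := by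
  intro j hj
  simp only [Tm.toks, List.mem_append, List.mem_singleton, reduceCtorEq, or_false] at hj
  rcases hj with h | h
  · exact hs j h
  · exact ht j h

theorem TB.neg {n : ℕ} {t : Tm} (ht : TB n t) : TB n (Tm.neg t) := by
  intro j hj
  simp only [Tm.toks, List.mem_append, List.mem_singleton, reduceCtorEq, or_false] at hj
  exact ht j hj

theorem TB.sub {n : ℕ} {s t : Tm} (hs : TB n s) (ht : TB n t) : TB n (subT s t) :=
  hs.add ht.neg

theorem TB.sq {n : ℕ} {t : Tm} (ht : TB n t) : TB n (sqT t) := ht.mul ht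

theorem TB.sum {n : ℕ} {l : List Tm} (h : ∀ t ∈ l, TB n t) : TB n (sumT l) := by
  induction l with
  | nil => exact TB.zero n
  | cons a l ih =>
    exact (h a (List.mem_cons_self)).add (ih fun t ht => h t (List.mem_cons_of_mem _ ht))

theorem TB.prod {n : ℕ} {l : List Tm} (h : ∀ t ∈ l, TB n t) : TB n (prodT l) := by
  induction l with
  | nil => exact TB.one n
  | cons a l ih =>
    exact (h a (List.mem_cons_self)).mul (ih fun t ht => h t (List.mem_cons_of_mem _ ht))

theorem TB.natT (n : ℕ) (l : List Bool) : TB n (natT l) := by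
  induction l with
  | nil => exact TB.zero n
  | cons b l ih =>
    refine TB.add (ih.mul ((TB.one n).add (TB.one n))) ?_
    cases b
    · exact TB.zero n
    · exact TB.one n

theorem TB.num (n k : ℕ) : TB n (numT k) := TB.natT n _

theorem TB.pow {n : ℕ} {t : Tm} (ht : TB n t) (d : ℕ) : TB n (tpow t d) :=
  TB.prod fun s hs => by
    rw [List.eq_of_mem_replicate hs]
    exact ht

/-! ## Pairs of terms -/

/-- the variables of a pair of terms are less than `n` -/
def PB (n : ℕ) (a : P2) : Prop := TB n a.1 ∧ TB n a.2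

theorem PB.cst {n : ℕ} {t : Tm} (h : TB n t) : PB n (dcst t) := ⟨h, TB.zero n⟩
theorem PB.add {n : ℕ} {a b : P2} (ha : PB n a) (hb : PB n b) : PB n (dadd a b) :=
  ⟨ha.1.add hb.1, ha.2.add hb.2⟩
theorem PB.sub {n : ℕ} {a b : P2} (ha : PB n a) (hb : PB n b) : PB n (dsub a b) :=
  ⟨ha.1.sub hb.1, ha.2.sub hb.2⟩
theorem PB.mul {n : ℕ} {a b : P2} (ha : PB n a) (hb : PB n b) : PB n (dmul a b) :=
  ⟨ha.1.mul hb.1, (ha.1.mul hb.2).add (ha.2.mul hb.1)⟩
theorem PB.sq {n : ℕ} {a : P2} (ha : PB n a) : PB n (dsq a) := ha.mul ha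
theorem PB.sum {n : ℕ} {l : List P2} (h : ∀ a ∈ l, PB n a) : PB n (dsum l) := by
  constructor
  · refine TB.sum fun t ht => ?_
    obtain ⟨a, ha, rfl⟩ := List.mem_map.1 ht
    exact (h a ha).1
  · refine TB.sum fun t ht => ?_
    obtain ⟨a, ha, rfl⟩ := List.mem_map.1 ht
    exact (h a ha).2
theorem PB.sumr {n m : ℕ} {f : ℕ → P2} (h : ∀ i < m, PB n (f i)) :
    PB n (dsum ((List.range m).map f)) :=
  PB.sum fun a ha => by
    obtain ⟨i, hi, rfl⟩ := List.mem_map.1 ha
    exact h i (List.mem_range.1 hi)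
theorem PB.pow {n : ℕ} {a : P2} (ha : PB n a) (d : ℕ) : PB n (dpow a d) :=
  ⟨ha.1.pow d, ((TB.num n d).mul (ha.1.pow (d - 1))).mul ha.2⟩

/-! ## Formulas -/

theorem InDim.eq {n : ℕ} {s t : Tm} (hs : TB n s) (ht : TB n t) : InDim n (Fm.eq s t) := by
  intro j hj
  simp only [Fm.toks, List.mem_append, List.mem_singleton, reduceCtorEq, or_false] at hj
  rcases hj with h | h
  · exact hs j h
  · exact ht j h

theorem InDim.lt {n : ℕ} {s t : Tm} (hs : TB n s) (ht : TB n t) : InDim n (Fm.lt s t) := by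
  intro j hj
  simp only [Fm.toks, List.mem_append, List.mem_singleton, reduceCtorEq, or_false] at hj
  rcases hj with h | h
  · exact hs j h
  · exact ht j h

theorem InDim.le {n : ℕ} {s t : Tm} (hs : TB n s) (ht : TB n t) : InDim n (Fm.le s t) := by
  intro j hj
  simp only [Fm.toks, List.mem_append, List.mem_singleton, reduceCtorEq, or_false] at hj
  rcases hj with h | h
  · exact hs j h
  · exact ht j h

theorem InDim.not {n : ℕ} {φ : Fm} (h : InDim n φ) : InDim n (Fm.not φ) := by
  intro j hj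
  simp only [Fm.toks, List.mem_append, List.mem_singleton, reduceCtorEq, or_false] at hj
  exact h j hj

theorem InDim.and {n : ℕ} {φ ψ : Fm} (h1 : InDim n φ) (h2 : InDim n ψ) :
    InDim n (Fm.and φ ψ) := by
  intro j hj
  simp only [Fm.toks, List.mem_append, List.mem_singleton, reduceCtorEq, or_false] at hj
  rcases hj with h | h
  · exact h1 j h
  · exact h2 j h

theorem InDim.or {n : ℕ} {φ ψ : Fm} (h1 : InDim n φ) (h2 : InDim n ψ) :
    InDim n (Fm.or φ ψ) := by
  intro j hj
  simp only [Fm.toks, List.mem_append, List.mem_singleton, reduceCtorEq, or_false] at hj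
  rcases hj with h | h
  · exact h1 j h
  · exact h2 j h

theorem InDim.conj {n : ℕ} {l : List Fm} (h : ∀ φ ∈ l, InDim n φ) : InDim n (conj l) := by
  induction l with
  | nil => exact InDim.eq (TB.zero n) (TB.zero n)
  | cons a l ih =>
    exact (h a (List.mem_cons_self)).and (ih fun t ht => h t (List.mem_cons_of_mem _ ht))

variable (p : Inp)

/-! ## The indices -/

theorem dn_le_dim : dn p ≤ dim p := by
  have a1 := dn_le_iV p
  have a2 := iV_lt_iW p
  have a3 := iW_le_iA p
  have a4 := iA_le_iB p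
  have a5 := iB_le_iC p
  have a6 := iC_le_iP p
  have a7 := iP_le_iM p
  have a8 := iM_lt_iT p
  have a9 := iT_lt_iZ p
  have a10 := iZ_le_dim p
  omega

theorem U1_le : U1 p ≤ U2 p + 2 := by
  have h : u1 (dn p) (dl p) (ds p) + kp (dl p) (ds p) + ds p + 6 ≤
      u2 (dn p) (dl p) (ds p) := (le_Gx _ _).trans (le_Gx _ _)
  have h1 : U1 p = u1 (dn p) (dl p) (ds p) := rfl
  have h2 : U2 p = u2 (dn p) (dl p) (ds p) := rfl
  omega

theorem b_cT {k : ℕ} (hk : k < dL p) : TB (dim p) (cT p k) := by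
  have a5 := iB_le_iC p
  have a6 := iC_le_iP p
  have a7 := iP_le_iM p
  have a8 := iM_lt_iT p
  have a9 := iT_lt_iZ p
  have a10 := iZ_le_dim p
  refine TB.mul (TB.var (by omega)) (TB.sum fun t ht => ?_)
  obtain ⟨r, hr, rfl⟩ := List.mem_map.1 ht
  have hr := List.mem_range.1 hr
  have := iC_lt p hk hr
  exact (TB.var (by omega)).mul (TB.var (by omega))

theorem b_tD : PB (dim p) (tD p) := by
  have a0 := U1_le p
  have a4 := iA_le_iB p
  have a5 := iB_le_iC p
  have a6 := iC_le_iP p
  have a7 := iP_le_iM p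
  have a8 := iM_lt_iT p
  have a9 := iT_lt_iZ p
  have a10 := iZ_le_dim p
  exact PB.cst (TB.var (by omega))

theorem b_tC : PB (dim p) (tC p) := by
  have a4 := iA_le_iB p
  have a5 := iB_le_iC p
  have a6 := iC_le_iP p
  have a7 := iP_le_iM p
  have a8 := iM_lt_iT p
  have a9 := iT_lt_iZ p
  have a10 := iZ_le_dim p
  exact PB.cst ((TB.var (by omega)).add (TB.var (by omega)))

theorem b_tB : PB (dim p) (tB p) := by
  have a4 := iA_le_iB p
  have a5 := iB_le_iC p
  have a6 := iC_le_iP p
  have a7 := iP_le_iM p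
  have a8 := iM_lt_iT p
  have a9 := iT_lt_iZ p
  have a10 := iZ_le_dim p
  exact PB.cst (TB.var (by omega))

theorem b_tβ : PB (dim p) (tβ p) := by
  have a5 := iB_le_iC p
  have a6 := iC_le_iP p
  have a7 := iP_le_iM p
  have a8 := iM_lt_iT p
  have a9 := iT_lt_iZ p
  have a10 := iZ_le_dim p
  have : U3 p ≤ U4 p := by unfold U4; omega
  exact PB.cst (TB.var (by omega))

theorem b_tX (k : ℕ) {b : ℕ} (hb : b < dn p) : PB (dim p) (tX k b) := by
  have := dn_le_dim p
  refine ⟨TB.var (by omega), ?_⟩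
  unfold tX
  simp only
  split_ifs
  · exact TB.one _
  · exact TB.zero _

/-- admissible blocks -/
def OkO (o : Option ℕ) : Prop := ∀ i, o = some i → i ≤ dn p

variable {o : Option ℕ} (ho : OkO p o) (k : ℕ)
include ho

theorem b_tU {a : ℕ} (ha : a < dq p) : PB (dim p) (tU p o k a) := by
  have a2 := iV_lt_iW p
  have a3 := iW_le_iA p
  have a4 := iA_le_iB p
  have a5 := iB_le_iC p
  have a6 := iC_le_iP p
  have a7 := iP_le_iM p
  have a8 := iM_lt_iT p
  have a9 := iT_lt_iZ p
  have a10 := iZ_le_dim p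
  rcases o with - | i
  · exact PB.cst (TB.var (by omega))
  · have hi := ho i rfl
    have := iY_lt p hi ha
    refine ⟨TB.var (by omega), ?_⟩
    simp only [tU, tY]
    split_ifs
    · exact TB.one _
    · exact TB.zero _

theorem b_tPick (i : ℕ) : PB (dim p) (tPick p o k i) := by
  unfold tPick
  have hq : (vS p).idxOf i + 1 < dq p := by
    have h1 : (vS p).idxOf i ≤ (vS p).length := List.idxOf_le_length
    unfold dq qd dl
    omega
  split_ifs with h
  · refine (b_tU p ho k (dq_pos p)).mul ((b_tD p).mul (b_tX p k ?_))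
    exact List.idxOf_lt_length_iff.2 h.2
  · exact b_tU p ho k hq

theorem b_tCerr (c : ER.Con) : PB (dim p) (tCerr p o k c) := by
  have h0 := b_tU p ho k (dq_pos p)
  unfold tCerr
  split_ifs
  · exact h0.mul ((b_tPick p ho k _).sub h0)
  · exact h0.mul (((b_tPick p ho k _).add (b_tPick p ho k _)).sub (b_tPick p ho k _))
  · exact ((b_tPick p ho k _).mul (b_tPick p ho k _)).sub (h0.mul (b_tPick p ho k _))

theorem b_tQ : PB (dim p) (tQ p o k) :=
  PB.sum fun a ha => by
    obtain ⟨c, -, rfl⟩ := List.mem_map.1 ha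
    exact (b_tCerr p ho k c).sq

theorem b_tH {j : ℕ} (hj : j ≤ dk p) : PB (dim p) (tH p o k j) := by
  unfold tH
  split_ifs
  · exact b_tU p ho k (dq_pos p)
  · refine b_tU p ho k ?_
    unfold dq qd
    omega

theorem b_tPen {t : P2} (ht : PB (dim p) t) : PB (dim p) (tPen p o k t) := by
  unfold tPen
  refine PB.add (PB.sq (PB.sub (PB.sumr fun a ha => (b_tU p ho k ha).sq)
    ((PB.cst (TB.num _ _)).mul ht.sq))) (PB.sumr fun j hj => PB.sq (PB.sub
      ((b_tH p ho k (by omega)).mul ht) (b_tH p ho k (by omega)).sq))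

theorem b_tG {t : P2} (ht : PB (dim p) t) : PB (dim p) (tG p o k t) := by
  unfold tG
  exact ht.sq.sq.add ((b_tC p).mul ((((b_tD p).mul (b_tQ p ho k)).sub
    ((b_tH p ho k le_rfl).mul (ht.mul ht.sq))).add ((b_tB p).mul (b_tPen p ho k ht))))

theorem b_tZs (s : ℕ) : PB (dim p) (tZs p o k s) :=
  PB.sumr fun _ hb => (PB.cst ((TB.num _ _).pow _)).mul (b_tU p ho k hb)

theorem b_tMn {a : ℕ} (ha : a < dq p) : PB (dim p) (tMn p o k a) := by
  unfold tMn
  split_ifs
  · exact PB.cst (TB.one _)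
  · exact b_tU p ho k ha

theorem b_tPc : PB (dim p) (tPc p o k) := by
  refine PB.sumr fun s hs => PB.sumr fun a ha => PB.sumr fun d hd => ?_
  refine (PB.cst (b_cT p ?_)).mul ((b_tMn p ho k ha).mul ((b_tZs p ho k s).pow _))
  unfold dL
  have h3 : (s * dq p + a + 1) * (2 * (dn p + 1)) ≤ dS0 p * dq p * (2 * (dn p + 1)) := by
    apply Nat.mul_le_mul_right
    calc s * dq p + a + 1 ≤ s * dq p + dq p := by omega
      _ = (s + 1) * dq p := by ring
      _ ≤ dS0 p * dq p := Nat.mul_le_mul_right _ hs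
  rw [add_mul (s * dq p + a) 1, one_mul] at h3
  omega

theorem b_tF0 : PB (dim p) (tF0 p o k) := by
  unfold tF0
  exact ((b_tG p ho k (PB.cst (TB.one _))).add ((b_tβ p).mul
    (PB.sumr fun a ha => (b_tU p ho k ha).pow _))).sub (PB.sumr fun b hb => (b_tX p k hb).sq)

theorem b_tF : PB (dim p) (tF p o k) := by
  unfold tF
  refine (b_tF0 p ho k).add (PB.add (PB.sumr fun b hb => ?_) (b_tPc p ho k))
  exact (PB.cst (b_cT p (by unfold dL; omega))).mul (b_tX p k hb)

omit ho

/-! ## The formula -/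

theorem b_chain {b k : ℕ} (h : b + k < dim p) : ∀ φ ∈ chain b k, InDim (dim p) φ := by
  intro φ hφ
  obtain ⟨j, hj, rfl⟩ := List.mem_map.1 hφ
  have hj := List.mem_range.1 hj
  exact InDim.eq (TB.var (by omega)) (TB.sq (TB.var (by omega)))

theorem b_dbl {b k : ℕ} (h : b + k < dim p) : ∀ φ ∈ dbl b k, InDim (dim p) φ := by
  intro φ hφ
  obtain ⟨j, hj, rfl⟩ := List.mem_map.1 hφ
  have hj := List.mem_range.1 hj
  exact InDim.eq (TB.var (by omega)) (TB.add (TB.var (by omega)) (TB.var (by omega)))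

theorem b_fC : ∀ φ ∈ fC p, InDim (dim p) φ := by
  have a0 := dn_le_iV p
  have a2 := iV_lt_iW p
  have a3 := iW_le_iA p
  have a4 := iA_le_iB p
  have a5 := iB_le_iC p
  have a6 := iC_le_iP p
  have a7 := iP_le_iM p
  have a8 := iM_lt_iT p
  have a9 := iT_lt_iZ p
  have a10 := iZ_le_dim p
  intro φ hφ
  unfold fC at hφ
  simp only [List.mem_cons, List.mem_append, List.mem_map, List.mem_range] at hφ
  rcases hφ with rfl | hφ | rfl | hφ | rfl | hφ | ⟨r, hr, rfl⟩ | ⟨b, hb, rfl⟩
  · exact InDim.eq (TB.var (by omega)) ((TB.one _).add (TB.one _))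
  · exact b_chain p (by omega) φ hφ
  · exact InDim.eq ((TB.var (by omega)).add (TB.var (by omega))) (TB.one _)
  · exact b_chain p (by omega) φ hφ
  · exact InDim.eq (TB.var (by omega)) (TB.one _)
  · exact b_dbl p (by omega) φ hφ
  · have : iC p + r < iP p := by unfold iP; omega
    exact InDim.eq (TB.sq (TB.var (by omega))) (TB.var (by omega))
  · exact InDim.le (TB.sq (TB.var (by omega))) (TB.num _ _)

theorem b_fJ {j : ℕ} (hj : j ≤ dn p) : ∀ φ ∈ fJ p j, InDim (dim p) φ := by
  have a0 := dn_le_iV p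
  have a2 := iV_lt_iW p
  have a3 := iW_le_iA p
  have a4 := iA_le_iB p
  have a5 := iB_le_iC p
  have a6 := iC_le_iP p
  have a7 := iP_le_iM p
  have a8 := iM_lt_iT p
  have a9 := iT_lt_iZ p
  have a10 := iZ_le_dim p
  have hok : ∀ i ≤ dn p, OkO p (some i) := by
    intro i hi i' hi'
    obtain rfl : i = i' := Option.some.inj hi'
    exact hi
  intro φ hφ
  unfold fJ at hφ
  simp only [List.mem_cons, List.mem_append, List.mem_map, List.mem_range] at hφ
  rcases hφ with rfl | ⟨i, hi, rfl⟩ | ⟨b, hb, rfl⟩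
  · refine InDim.eq (TB.sum fun t ht => ?_) (TB.one _)
    obtain ⟨i, hi, rfl⟩ := List.mem_map.1 ht
    have hi := List.mem_range.1 hi
    exact TB.var (by omega)
  · split_ifs with hij
    · refine InDim.conj fun φ hφ => ?_
      simp only [List.mem_cons, List.mem_map, List.mem_range] at hφ
      rcases hφ with rfl | ⟨a, ha, rfl⟩
      · exact InDim.eq (b_tF p (hok i (by omega)) _).1 (TB.var (by omega))
      · exact InDim.eq (b_tF p (hok i (by omega)) _).2 (TB.zero _)
    · refine InDim.conj fun φ hφ => ?_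
      simp only [List.mem_cons, List.mem_map, List.mem_range] at hφ
      rcases hφ with rfl | ⟨a, ha, rfl⟩
      · exact InDim.eq (TB.var (by omega)) (TB.zero _)
      · have := iY_lt p (show i ≤ dn p by omega) ha
        exact InDim.eq (TB.var (by omega)) (TB.zero _)
  · refine InDim.eq (TB.sum fun t ht => ?_) (TB.zero _)
    obtain ⟨i, hi, rfl⟩ := List.mem_map.1 ht
    have hi := List.mem_range.1 hi
    exact (TB.var (by omega)).mul (b_tF p (hok i (by omega)) _).2

theorem b_fD : InDim (dim p) (fD p) := by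
  have a7 := iP_le_iM p
  have a8 := iM_lt_iT p
  have a9 := iT_lt_iZ p
  have a10 := iZ_le_dim p
  unfold fD
  refine InDim.conj fun φ hφ => ?_
  simp only [List.mem_cons, List.mem_append, List.mem_map, List.mem_range] at hφ
  rcases hφ with hφ | rfl | ⟨j, hj, rfl⟩
  · exact b_fC p φ hφ
  · refine InDim.eq (TB.prod fun t ht => ?_) (TB.zero _)
    obtain ⟨j, -, rfl⟩ := List.mem_map.1 ht
    exact TB.sub (TB.var (by omega)) (TB.num _ _)
  · exact InDim.or (InDim.not (InDim.eq (TB.var (by omega)) (TB.num _ _)))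
      (InDim.conj (b_fJ p (by omega)))

theorem b_fK : InDim (dim p) (fK p) := by
  have a9 := iT_lt_iZ p
  have a10 := iZ_le_dim p
  have hq := dq_pos p
  have hok : OkO p none := by
    intro i hi
    cases hi
  unfold fK
  refine InDim.or (InDim.conj fun φ hφ => ?_) (InDim.conj fun φ hφ => ?_)
  · simp only [List.mem_cons, List.mem_map, List.mem_range] at hφ
    rcases hφ with rfl | ⟨a, ha, rfl⟩
    · exact InDim.eq (TB.var (by omega)) (TB.zero _)
    · exact InDim.eq (TB.var (by omega)) (TB.zero _)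
  · simp only [List.mem_cons, List.mem_map, List.mem_range] at hφ
    rcases hφ with rfl | rfl | ⟨a, ha, rfl⟩
    · exact InDim.lt (TB.zero _) (TB.var (by omega))
    · exact InDim.le (b_tG p hok _ (PB.cst (TB.var (by omega)))).1 (TB.zero _)
    · exact InDim.le (TB.sq (TB.var (by omega))) ((TB.num _ _).mul (TB.sq (TB.var (by omega))))

/-- **(M3)** -/
theorem stmtM3 : StmtM3 := fun p => (b_fD p).and (b_fK p)

end Pool.Agent.T9h94.Iso.Red
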