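import Mathlib

/-! Polynomial functions, a relation by counting, and a grid point. -/

set_option autoImplicit false

namespace Pool.Agent.T9h94.Iso

open Finset

/-- `f` is a polynomial function of total degree at most `d`. -/
def PF {ι : Type} (d : ℕ) (f : (ι → ℝ) → ℝ) : Prop :=
  ∃ p : MvPolynomial ι ℝ, p.totalDegree ≤ d ∧ ∀ a, MvPolynomial.eval a p = f a

/-- (A1) closure properties -/
theorem PF.mono {ι : Type} {d e : ℕ} {f : (ι → ℝ) → ℝ} (h : PF d f) (hde : d ≤ e) : PF e f := by
  obtain ⟨p, hp, h⟩ := h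
  exact ⟨p, hp.trans hde, h⟩

theorem PF.const {ι : Type} (d : ℕ) (c : ℝ) : PF d (fun _ : ι → ℝ => c) :=
  ⟨MvPolynomial.C c, by rw [MvPolynomial.totalDegree_C]; exact Nat.zero_le _, fun a => by simp⟩

theorem PF.coord {ι : Type} {d : ℕ} (hd : 1 ≤ d) (i : ι) : PF d (fun a : ι → ℝ => a i) :=
  ⟨MvPolynomial.X i, by rw [MvPolynomial.totalDegree_X]; exact hd, fun a => by simp⟩

theorem PF.add {ι : Type} {d : ℕ} {f g : (ι → ℝ) → ℝ} (hf : PF d f) (hg : PF d g) :
    PF d (fun a => f a + g a) := by
  obtain ⟨p, hp, h⟩ := hf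
  obtain ⟨q, hq, h'⟩ := hg
  exact ⟨p + q, (MvPolynomial.totalDegree_add p q).trans (max_le hp hq), fun a => by
    rw [map_add, h, h']⟩

theorem PF.neg {ι : Type} {d : ℕ} {f : (ι → ℝ) → ℝ} (hf : PF d f) : PF d (fun a => -f a) := by
  obtain ⟨p, hp, h⟩ := hf
  exact ⟨-p, by rw [MvPolynomial.totalDegree_neg]; exact hp, fun a => by rw [map_neg, h]⟩

theorem PF.sub {ι : Type} {d : ℕ} {f g : (ι → ℝ) → ℝ} (hf : PF d f) (hg : PF d g) :
    PF d (fun a => f a - g a) := by
  have := hf.add hg.neg
  refine (fun h => h) (show PF d (fun a => f a - g a) from ?_)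
  simpa only [sub_eq_add_neg] using this

theorem PF.mul {ι : Type} {d e : ℕ} {f g : (ι → ℝ) → ℝ} (hf : PF d f) (hg : PF e g) :
    PF (d + e) (fun a => f a * g a) := by
  obtain ⟨p, hp, h⟩ := hf
  obtain ⟨q, hq, h'⟩ := hg
  exact ⟨p * q, (MvPolynomial.totalDegree_mul p q).trans (Nat.add_le_add hp hq), fun a => by
    rw [map_mul, h, h']⟩

theorem PF.pow {ι : Type} {d : ℕ} {f : (ι → ℝ) → ℝ} (hf : PF d f) (k : ℕ) :
    PF (d * k) (fun a => f a ^ k) := by
  obtain ⟨p, hp, h⟩ := hf
  refine ⟨p ^ k, (MvPolynomial.totalDegree_pow p k).trans ?_, fun a => by rw [map_pow, h]⟩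
  rw [mul_comm d k]
  exact Nat.mul_le_mul_left k hp

theorem PF.sum {ι σ : Type} (s : Finset σ) {d : ℕ} {f : σ → (ι → ℝ) → ℝ}
    (hf : ∀ i ∈ s, PF d (f i)) : PF d (fun a => ∑ i ∈ s, f i a) := by
  classical
  induction s using Finset.induction_on with
  | empty => simpa using PF.const d 0
  | @insert i s hi ih =>
    have := (hf i (mem_insert_self i s)).add (ih fun j hj => hf j (mem_insert_of_mem hj))
    refine (fun h => h) (show PF d (fun a => ∑ i ∈ insert i s, f i a) from ?_)
    simpa only [sum_insert hi] using this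

theorem PF.prod {ι σ : Type} (s : Finset σ) {d : ℕ} {f : σ → (ι → ℝ) → ℝ}
    (hf : ∀ i ∈ s, PF d (f i)) : PF (s.card * d) (fun a => ∏ i ∈ s, f i a) := by
  classical
  induction s using Finset.induction_on with
  | empty => simpa using PF.const 0 1
  | @insert i s hi ih =>
    have := (hf i (mem_insert_self i s)).mul (ih fun j hj => hf j (mem_insert_of_mem hj))
    refine (fun h => h) (show PF ((insert i s).card * d) (fun a => ∏ i ∈ insert i s, f i a) from ?_)
    rw [card_insert_of_notMem hi, add_mul, one_mul, add_comm]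
    simpa only [prod_insert hi] using this

theorem PF.det {ι m : Type} [Fintype m] [DecidableEq m] {d : ℕ} {M : (ι → ℝ) → Matrix m m ℝ}
    (hM : ∀ i j, PF d (fun a => M a i j)) : PF (Fintype.card m * d) (fun a => (M a).det) := by
  have h : ∀ s : Equiv.Perm m, s ∈ (univ : Finset (Equiv.Perm m)) →
      PF (Fintype.card m * d) (fun a => ((Equiv.Perm.sign s : ℤ) : ℝ) * ∏ i, M a (s i) i) := by
    intro s _
    have h1 := PF.prod (univ : Finset m) (fun i _ => hM (s i) i)
    have h2 := (PF.const (ι := ι) 0 ((Equiv.Perm.sign s : ℤ) : ℝ)).mul h1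
    rw [zero_add] at h2
    exact h2
  have := PF.sum univ h
  refine (fun h => h) (show PF (Fintype.card m * d) (fun a => (M a).det) from ?_)
  simpa only [Matrix.det_apply'] using this

theorem PF.adj {ι m : Type} [Fintype m] [DecidableEq m] {d : ℕ} {M : (ι → ℝ) → Matrix m m ℝ}
    (hM : ∀ i j, PF d (fun a => M a i j)) (i j : m) :
    PF (Fintype.card m * d) (fun a => (M a).adjugate i j) := by
  have h : PF (Fintype.card m * d) (fun a => ((M a).updateRow j (Pi.single i 1)).det) := by
    apply PF.det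
    intro k l
    by_cases hk : k = j
    · subst hk
      simpa only [Matrix.updateRow_self] using PF.const d ((Pi.single i 1 : m → ℝ) l)
    · simpa only [Matrix.updateRow_ne hk] using hM k l
  simpa only [Matrix.adjugate_apply] using h

/-- (A2) more functions than variables are related, by counting monomials (exponents `≤ T` in each
of the `κ`-variables against exponents `≤ δ * card κ * T` in each of the `ι`-variables, with
`T = (δ * card κ + 1) ^ card ι`). -/
theorem exists_relation {ι κ : Type} [Fintype ι] [Fintype κ]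
    (hκ : Fintype.card κ = Fintype.card ι + 1) (δ : ℕ)
    (N : κ → (ι → ℝ) → ℝ) (hN : ∀ k, PF δ (N k)) (D : (ι → ℝ) → ℝ) (hD : PF δ D) :
    ∃ Q : MvPolynomial κ ℝ, Q ≠ 0 ∧
      (∀ k, Q.degreeOf k ≤ (δ * Fintype.card κ + 1) ^ Fintype.card ι) ∧
      ∀ a, D a ≠ 0 → ∀ c : κ → ℝ, (∀ k, c k * D a = N k a) → MvPolynomial.eval c Q = 0 := by
  classical
  choose pN hpN hN using hN
  obtain ⟨pD, hpD, hD⟩ := hD
  set c1 := Fintype.card κ with hc1
  set n := Fintype.card ι with hn
  set T : ℕ := (δ * c1 + 1) ^ n with hT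
  set E : ℕ := δ * (c1 * T) with hE
  -- the polynomials
  let P : (κ → Fin (T + 1)) → MvPolynomial ι ℝ := fun m =>
    (∏ k, pN k ^ (m k : ℕ)) * pD ^ (c1 * T - ∑ k, (m k : ℕ))
  have hsum : ∀ m : κ → Fin (T + 1), ∑ k, (m k : ℕ) ≤ c1 * T := by
    intro m
    calc ∑ k, (m k : ℕ) ≤ ∑ _k : κ, T := sum_le_sum fun k _ => Nat.lt_succ_iff.1 (m k).2
      _ = c1 * T := by simp [hc1]
  have hP : ∀ m, (P m).totalDegree ≤ E := by
    intro m
    have h1 : (∏ k, pN k ^ (m k : ℕ)).totalDegree ≤ δ * ∑ k, (m k : ℕ) := by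
      refine (MvPolynomial.totalDegree_finsetProd _ _).trans ?_
      rw [mul_sum]
      refine sum_le_sum fun k _ => (MvPolynomial.totalDegree_pow _ _).trans ?_
      rw [mul_comm]
      exact Nat.mul_le_mul_right _ (hpN k)
    have h2 : (pD ^ (c1 * T - ∑ k, (m k : ℕ))).totalDegree ≤
        δ * (c1 * T - ∑ k, (m k : ℕ)) := by
      refine (MvPolynomial.totalDegree_pow _ _).trans ?_
      rw [mul_comm]
      exact Nat.mul_le_mul_right _ hpD
    refine (MvPolynomial.totalDegree_mul _ _).trans ((Nat.add_le_add h1 h2).trans ?_)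
    rw [← mul_add, Nat.add_sub_cancel' (hsum m)]
  -- the linear map
  let L : ((κ → Fin (T + 1)) → ℝ) →ₗ[ℝ] ((ι → Fin (E + 1)) → ℝ) :=
    { toFun := fun q e => ∑ m, q m *
        (P m).coeff (Finsupp.equivFunOnFinite.symm fun i => (e i : ℕ))
      map_add' := by
        intro q r
        funext e
        simp only [Pi.add_apply, add_mul, sum_add_distrib]
      map_smul' := by
        intro s q
        funext e
        simp only [Pi.smul_apply, smul_eq_mul, RingHom.id_apply, mul_sum, mul_assoc] }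
  have hlt : Module.finrank ℝ ((ι → Fin (E + 1)) → ℝ) <
      Module.finrank ℝ ((κ → Fin (T + 1)) → ℝ) := by
    rw [Module.finrank_fintype_fun_eq_card, Module.finrank_fintype_fun_eq_card]
    simp only [Fintype.card_pi, Fintype.card_fin, prod_const, card_univ]
    rw [← hn, ← hc1, hκ]
    have hT1 : 1 ≤ T := Nat.one_le_pow _ _ (Nat.succ_pos _)
    have h1 : E + 1 ≤ (δ * c1 + 1) * T := by
      rw [hE, add_mul, one_mul, mul_assoc]
      exact Nat.add_le_add_left hT1 _
    calc (E + 1) ^ n ≤ ((δ * c1 + 1) * T) ^ n := Nat.pow_le_pow_left h1 n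
      _ = T ^ (n + 1) := by rw [mul_pow, ← hT, pow_succ, mul_comm]
      _ < (T + 1) ^ (n + 1) := Nat.pow_lt_pow_left (Nat.lt_succ_self T) (Nat.succ_ne_zero n)
  have hker := LinearMap.ker_ne_bot_of_finrank_lt (f := L) hlt
  obtain ⟨q, hq, hq0⟩ := (Submodule.ne_bot_iff _).1 hker
  have hq : ∀ e : ι → Fin (E + 1), ∑ m, q m *
      (P m).coeff (Finsupp.equivFunOnFinite.symm fun i => (e i : ℕ)) = 0 := by
    intro e
    exact congrFun (LinearMap.mem_ker.1 hq) e
  have hzero : ∑ m, MvPolynomial.C (q m) * P m = 0 := by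
    ext e
    rw [MvPolynomial.coeff_sum, MvPolynomial.coeff_zero]
    simp only [MvPolynomial.coeff_C_mul]
    by_cases he : ∀ i, e i < E + 1
    · have := hq fun i => ⟨e i, he i⟩
      have h2 : (Finsupp.equivFunOnFinite.symm fun i => e i) = e := by
        ext i
        simp
      simpa only [h2] using this
    · push Not at he
      obtain ⟨i, hi⟩ := he
      refine sum_eq_zero fun m _ => ?_
      rw [mul_eq_zero]
      right
      apply MvPolynomial.coeff_eq_zero_of_totalDegree_lt
      calc (P m).totalDegree ≤ E := hP m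
        _ < e i := hi
        _ ≤ ∑ i ∈ e.support, e i := by
          apply single_le_sum (f := fun i => e i) (fun _ _ => Nat.zero_le _)
          rw [Finsupp.mem_support_iff]
          omega
  -- the relation
  let mono : (κ → Fin (T + 1)) → (κ →₀ ℕ) := fun m => Finsupp.equivFunOnFinite.symm fun k => (m k : ℕ)
  have hmono : Function.Injective mono := by
    intro m m' h
    funext k
    have := DFunLike.congr_fun h k
    exact Fin.ext (by simpa [mono] using this)
  refine ⟨∑ m, MvPolynomial.monomial (mono m) (q m), ?_, ?_, ?_⟩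
  · obtain ⟨m, hm⟩ : ∃ m, q m ≠ 0 := by
      by_contra h
      push Not at h
      exact hq0 (funext h)
    intro h0
    apply hm
    have := congrArg (MvPolynomial.coeff (mono m)) h0
    rw [MvPolynomial.coeff_sum, MvPolynomial.coeff_zero] at this
    simp only [MvPolynomial.coeff_monomial, hmono.eq_iff] at this
    simpa using this
  · intro k
    refine (MvPolynomial.degreeOf_sum_le _ _ _).trans ?_
    refine Finset.sup_le fun m _ => ?_
    by_cases hm : q m = 0
    · rw [hm, map_zero, MvPolynomial.degreeOf_zero]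
      exact Nat.zero_le _
    · rw [MvPolynomial.degreeOf_monomial_eq _ _ hm]
      simpa [mono] using Nat.lt_succ_iff.1 (m k).2
  · intro a hDa c hc
    have h1 := congrArg (MvPolynomial.eval a) hzero
    rw [map_sum, map_zero] at h1
    have h2 : D a ^ (c1 * T) * MvPolynomial.eval c (∑ m, MvPolynomial.monomial (mono m) (q m)) =
        ∑ m, MvPolynomial.eval a (MvPolynomial.C (q m) * P m) := by
      rw [map_sum, mul_sum]
      refine sum_congr rfl fun m _ => ?_
      rw [MvPolynomial.eval_monomial, map_mul, MvPolynomial.eval_C]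
      have h3 : MvPolynomial.eval a (P m) =
          (∏ k, (N k a) ^ (m k : ℕ)) * (D a) ^ (c1 * T - ∑ k, (m k : ℕ)) := by
        simp only [P, map_mul, map_prod, map_pow, hN, hD]
      have h4 : (mono m).prod (fun k e => c k ^ e) = ∏ k, c k ^ (m k : ℕ) := by
        rw [Finsupp.prod_fintype _ _ (fun k => pow_zero _)]
        rfl
      rw [h3, h4]
      have h5 : ∏ k, (N k a) ^ (m k : ℕ) = (∏ k, c k ^ (m k : ℕ)) * D a ^ (∑ k, (m k : ℕ)) := by
        rw [← prod_pow_eq_pow_sum, ← prod_mul_distrib]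
        refine prod_congr rfl fun k _ => ?_
        rw [← hc k, mul_pow]
      rw [h5]
      have h6 : D a ^ (c1 * T) = D a ^ (∑ k, (m k : ℕ)) * D a ^ (c1 * T - ∑ k, (m k : ℕ)) := by
        rw [← pow_add, Nat.add_sub_cancel' (hsum m)]
      rw [h6]
      ring
    rw [h1] at h2
    exact (mul_eq_zero.1 h2).resolve_left (pow_ne_zero _ hDa)

/-- (A3) a grid point which is not a zero of the leading coefficients. -/
theorem exists_grid {Λ ι : Type} [Fintype Λ] [Fintype ι] (T N : ℕ)
    (hN : Fintype.card ι * T < N) (Q : ι → MvPolynomial (Option Λ) ℝ) (hQ : ∀ i, Q i ≠ 0)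
    (hT : ∀ i k, (Q i).degreeOf k ≤ T) (η : ℝ) (hη : η ≠ 0) :
    ∃ m : Λ → ℕ, (∀ k, m k < N) ∧ ∀ i,
      {x : ℝ | MvPolynomial.eval (fun o : Option Λ => o.elim x (fun k => η * m k)) (Q i) = 0}.Finite := by
  classical
  have hprod : ∏ i, Q i ≠ 0 := prod_ne_zero_iff.2 fun i _ => hQ i
  have hdeg : ∀ o, (∏ i, Q i).degreeOf o < N := by
    intro o
    refine lt_of_le_of_lt ((MvPolynomial.degreeOf_prod_le o univ Q).trans ?_) hN
    calc ∑ i, (Q i).degreeOf o ≤ ∑ _i : ι, T := sum_le_sum fun i _ => hT i o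
      _ = Fintype.card ι * T := by simp
  let S : Option Λ → Finset ℝ := fun _ => (range N).image fun m : ℕ => η * (m : ℝ)
  have hS : ∀ o, (S o).card = N := by
    intro o
    rw [card_image_of_injective _ ?_, card_range]
    intro m m' h
    exact_mod_cast mul_left_cancel₀ hη h
  obtain ⟨x, hx, hx0⟩ : ∃ x : Option Λ → ℝ, (∀ o, x o ∈ S o) ∧
      MvPolynomial.eval x (∏ i, Q i) ≠ 0 := by
    by_contra h
    push Not at h
    exact hprod (MvPolynomial.eq_zero_of_eval_zero_at_prod_finset _ S
      (fun o => by rw [hS o]; exact hdeg o) h)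
  have hm : ∀ k : Λ, ∃ m : ℕ, m < N ∧ η * (m : ℝ) = x (some k) := by
    intro k
    simpa [S] using hx (some k)
  choose m hmN hm using hm
  refine ⟨m, hmN, fun i => ?_⟩
  let R : Polynomial ℝ := MvPolynomial.aeval
    (fun o : Option Λ => o.elim Polynomial.X (fun k => Polynomial.C (η * (m k : ℝ)))) (Q i)
  have hR : ∀ y : ℝ, R.eval y =
      MvPolynomial.eval (fun o : Option Λ => o.elim y (fun k => η * m k)) (Q i) := by
    intro y
    have h1 : (Polynomial.evalRingHom y).comp
        (MvPolynomial.aeval (R := ℝ)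
          (fun o : Option Λ => o.elim Polynomial.X
            (fun k => Polynomial.C (η * (m k : ℝ))))).toRingHom =
        MvPolynomial.eval (fun o : Option Λ => o.elim y (fun k => η * m k)) := by
      apply MvPolynomial.ringHom_ext
      · intro r
        simp
      · intro o
        cases o <;> simp
    exact RingHom.congr_fun h1 (Q i)
  have hR0 : R ≠ 0 := by
    intro h0
    apply hx0
    rw [map_prod]
    apply prod_eq_zero (mem_univ i)
    have := hR (x none)
    rw [h0, Polynomial.eval_zero] at this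
    rw [this]
    have hxe : x = fun o : Option Λ => o.elim (x none) (fun k => η * (m k : ℝ)) := by
      funext o
      cases o with
      | none => rfl
      | some k => exact (hm k).symm
    exact congrArg (fun z => MvPolynomial.eval z (Q i)) hxe
  refine (R.roots.toFinset.finite_toSet).subset ?_
  intro y hy
  rw [mem_coe, Multiset.mem_toFinset, Polynomial.mem_roots hR0, Polynomial.IsRoot.def, hR y]
  exact hy

end Pool.Agent.T9h94.Iso
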