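import Pool.Agent.T9h85.Iso.P1a

/-! # (P0) derivatives, continuity and degrees of the polynomials of the reduction -/

set_option autoImplicit false

namespace Pool.Agent.T9h94.Iso

open Finset Pool.Agent.NPC Pool.Agent.R537.RN
open MvPolynomial (pderiv)

/-! ## General facts on polynomials -/

section general

variable {σ : Type}

/-- the homomorphism to the dual numbers -/
noncomputable def dual (x u : σ → ℝ) : MvPolynomial σ ℝ →+* DualNumber ℝ :=
  MvPolynomial.eval₂Hom (TrivSqZeroExt.inlHom ℝ ℝ)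
    (fun i => TrivSqZeroExt.inl (x i) + TrivSqZeroExt.inr (u i))

theorem dual_C (x u : σ → ℝ) (r : ℝ) : dual x u (MvPolynomial.C r) = TrivSqZeroExt.inl r := by
  unfold dual
  rw [MvPolynomial.coe_eval₂Hom, MvPolynomial.eval₂_C]
  rfl

theorem dual_X (x u : σ → ℝ) (i : σ) :
    dual x u (MvPolynomial.X i) = TrivSqZeroExt.inl (x i) + TrivSqZeroExt.inr (u i) := by
  unfold dual
  rw [MvPolynomial.coe_eval₂Hom, MvPolynomial.eval₂_X]

variable [Fintype σ]

theorem dual_spec (x u : σ → ℝ) (p : MvPolynomial σ ℝ) :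
    (dual x u p).fst = MvPolynomial.eval x p ∧
    (dual x u p).snd = ∑ i, MvPolynomial.eval x (pderiv i p) * u i := by
  classical
  induction p using MvPolynomial.induction_on with
  | C a =>
    rw [dual_C]
    simp
  | add p q hp hq =>
    rw [map_add, TrivSqZeroExt.fst_add, TrivSqZeroExt.snd_add, hp.1, hp.2, hq.1, hq.2]
    refine ⟨(map_add _ _ _).symm, ?_⟩
    rw [← sum_add_distrib]
    refine sum_congr rfl fun i _ => ?_
    rw [map_add, map_add, add_mul]
  | mul_X p i hp =>
    rw [map_mul, dual_X, TrivSqZeroExt.fst_mul, TrivSqZeroExt.snd_mul, hp.1, hp.2]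
    simp only [TrivSqZeroExt.fst_add, TrivSqZeroExt.fst_inl, TrivSqZeroExt.fst_inr, add_zero,
      TrivSqZeroExt.snd_add, TrivSqZeroExt.snd_inl, TrivSqZeroExt.snd_inr, zero_add, smul_eq_mul,
      MulOpposite.smul_eq_mul_unop, MulOpposite.unop_op]
    refine ⟨by rw [map_mul, MvPolynomial.eval_X], ?_⟩
    have h1 : ∀ k, MvPolynomial.eval x (pderiv k (p * MvPolynomial.X i)) * u k =
        MvPolynomial.eval x (pderiv k p) * u k * x i +
          (if k = i then MvPolynomial.eval x p * u k else 0) := by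
      intro k
      rw [MvPolynomial.pderiv_mul, map_add, map_mul, map_mul, MvPolynomial.eval_X]
      by_cases hk : k = i
      · subst hk
        rw [MvPolynomial.pderiv_X_self, map_one, if_pos rfl]
        ring
      · rw [MvPolynomial.pderiv_X_of_ne (Ne.symm hk), map_zero, if_neg hk]
        ring
    simp only [h1, sum_add_distrib, sum_ite_eq', mem_univ, if_true, sum_mul]
    ring

theorem hasDerivAt_eval (x u : σ → ℝ) (p : MvPolynomial σ ℝ) (t : ℝ) :
    HasDerivAt (fun t : ℝ => MvPolynomial.eval (x + t • u) p)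
      (∑ i, MvPolynomial.eval (x + t • u) (pderiv i p) * u i) t := by
  classical
  induction p using MvPolynomial.induction_on with
  | C a =>
    simp only [MvPolynomial.eval_C, MvPolynomial.pderiv_C, map_zero, zero_mul, sum_const_zero]
    exact hasDerivAt_const t a
  | add p q hp hq =>
    have := hp.add hq
    simp only [map_add, add_mul, sum_add_distrib]
    exact this
  | mul_X p i hp =>
    have h0 : HasDerivAt (fun t : ℝ => (x + t • u) i) (u i) t := by
      have h1 : HasDerivAt (fun t : ℝ => x i + t * u i) (1 * u i) t :=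
        ((hasDerivAt_id t).mul_const (u i)).const_add (x i)
      rw [one_mul] at h1
      exact h1
    have h1 := hp.mul h0
    have h2 : ∀ k, MvPolynomial.eval (x + t • u) (pderiv k (p * MvPolynomial.X i)) * u k =
        MvPolynomial.eval (x + t • u) (pderiv k p) * u k * (x + t • u) i +
          (if k = i then MvPolynomial.eval (x + t • u) p * u k else 0) := by
      intro k
      rw [MvPolynomial.pderiv_mul, map_add, map_mul, map_mul, MvPolynomial.eval_X]
      by_cases hk : k = i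
      · subst hk
        rw [MvPolynomial.pderiv_X_self, map_one, if_pos rfl]
        ring
      · rw [MvPolynomial.pderiv_X_of_ne (Ne.symm hk), map_zero, if_neg hk]
        ring
    simp only [h2, sum_add_distrib, sum_ite_eq', mem_univ, if_true, ← sum_mul]
    simp only [map_mul, MvPolynomial.eval_X]
    exact h1

theorem totalDegree_pderiv_le (i : σ) (p : MvPolynomial σ ℝ) :
    (pderiv i p).totalDegree ≤ p.totalDegree := by
  classical
  conv_lhs => rw [p.as_sum, map_sum]
  refine MvPolynomial.totalDegree_finsetSum_le fun s hs => ?_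
  rw [MvPolynomial.pderiv_monomial]
  refine (MvPolynomial.totalDegree_monomial_le _ _).trans ?_
  refine le_trans ?_ (MvPolynomial.le_totalDegree hs)
  rw [Finsupp.sum_fintype _ _ (fun _ => rfl), Finsupp.sum_fintype _ _ (fun _ => rfl)]
  refine sum_le_sum fun k _ => ?_
  simp only [id, Finsupp.coe_tsub, Pi.sub_apply]
  exact Nat.sub_le _ _

end general

/-! ## The polynomial -/

variable (G : Dat)

/-- the variables -/
abbrev Vr : Type := Fin G.n ⊕ Fin G.q

/-- the polynomial -/
noncomputable def PP (c : ℕ → ℝ) : MvPolynomial (Vr G) ℝ :=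
  Ft G.loc G.S G.κ G.S0 (MvPolynomial.C G.D) (MvPolynomial.C G.C) (MvPolynomial.C G.B)
    (MvPolynomial.C G.β) (fun i => MvPolynomial.C (c i)) (fun b => MvPolynomial.X (Sum.inl b))
    (fun a => if h : a < G.q then MvPolynomial.X (Sum.inr ⟨a, h⟩) else 0)

theorem eval_PP (c : ℕ → ℝ) (X : Fin G.n → ℝ) (y : Fin G.q → ℝ) :
    MvPolynomial.eval (Sum.elim X y) (PP G c) = G.F c X y := by
  unfold PP Dat.F
  rw [Ft_map]
  simp only [MvPolynomial.eval_C, MvPolynomial.eval_X, Sum.elim_inl]
  congr 1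
  funext a
  unfold ex
  split_ifs with h
  · rw [MvPolynomial.eval_X]
    rfl
  · rw [map_zero]

theorem dual_PP (c : ℕ → ℝ) (X U : Fin G.n → ℝ) (y W : Fin G.q → ℝ) :
    (dual (Sum.elim X y) (Sum.elim U W) (PP G c)).snd = G.dF c U (ex W) X y := by
  unfold PP Dat.dF
  rw [Ft_map]
  congr 1
  have h1 : ∀ r, dual (Sum.elim X y) (Sum.elim U W) (MvPolynomial.C r) =
      (TrivSqZeroExt.inl r : DualNumber ℝ) := dual_C _ _
  simp only [h1, dual_X, Sum.elim_inl]
  congr 1
  funext a
  unfold ex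
  split_ifs with h
  · rw [dual_X]
    rfl
  · rw [map_zero]
    simp

theorem dF_eq (c : ℕ → ℝ) (X U : Fin G.n → ℝ) (y W : Fin G.q → ℝ) :
    G.dF c U (ex W) X y = ∑ b, MvPolynomial.eval (Sum.elim X y) (pderiv (Sum.inl b) (PP G c)) * U b +
      ∑ a, MvPolynomial.eval (Sum.elim X y) (pderiv (Sum.inr a) (PP G c)) * W a := by
  rw [← dual_PP, (dual_spec _ _ _).2, Fintype.sum_sum_type]
  rfl

theorem dX_eq (c : ℕ → ℝ) (b : Fin G.n) (X : Fin G.n → ℝ) (y : Fin G.q → ℝ) :
    G.dX c b X y = MvPolynomial.eval (Sum.elim X y) (pderiv (Sum.inl b) (PP G c)) := by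
  have h0 : ex (0 : Fin G.q → ℝ) = fun _ => 0 := by
    funext a
    unfold ex
    split_ifs <;> rfl
  unfold Dat.dX
  rw [← h0, dF_eq]
  simp

theorem dY_eq (c : ℕ → ℝ) (k : Fin G.q) (X : Fin G.n → ℝ) (y : Fin G.q → ℝ) :
    G.dY c k X y = MvPolynomial.eval (Sum.elim X y) (pderiv (Sum.inr k) (PP G c)) := by
  have h0 : (fun a' : ℕ => if a' = (k : ℕ) then (1 : ℝ) else 0) =
      ex (fun a : Fin G.q => if a = k then (1 : ℝ) else 0) := by
    funext a
    unfold ex
    by_cases h : a < G.q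
    · rw [dif_pos h]
      by_cases hk : a = k
      · have : (⟨a, h⟩ : Fin G.q) = k := Fin.ext hk
        simp only [if_pos hk, if_pos this]
      · have : (⟨a, h⟩ : Fin G.q) ≠ k := fun h' => hk (congrArg Fin.val h')
        simp only [if_neg hk, if_neg this]
    · rw [dif_neg h, if_neg]
      have := k.2
      omega
  unfold Dat.dY
  rw [h0, dF_eq]
  simp

theorem Ft_congr {R : Type} [CommRing R] {n l : ℕ} (loc : ℕ → Fin n ⊕ (Fin 0 ⊕ Fin l))
    (S : List ER.Con) (κ S0 : ℕ) (D C B β : R) (c : ℕ → R) (X : Fin n → R) (y y' : ℕ → R)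
    (h : ∀ a < qd l κ, y a = y' a) :
    Ft loc S κ S0 D C B β c X y = Ft loc S κ S0 D C B β c X y' := by
  unfold Ft F0
  rw [Gt_congr loc S κ D C B X y y' 1 h, Pc_congr (qd l κ) (n + 1) S0 _ y y' h]
  have : ∑ a ∈ range (qd l κ), y a ^ (2 * n + 4) = ∑ a ∈ range (qd l κ), y' a ^ (2 * n + 4) :=
    sum_congr rfl fun a ha => by rw [h a (mem_range.1 ha)]
  rw [this]

theorem dY_large (c : ℕ → ℝ) {k : ℕ} (hk : G.q ≤ k) (X : Fin G.n → ℝ) (y : Fin G.q → ℝ) :
    G.dY c k X y = 0 := by
  have h0 : ex (0 : Fin G.q → ℝ) = fun _ => 0 := by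
    funext a
    unfold ex
    split_ifs <;> rfl
  have h1 : G.dY c k X y = G.dF c (fun _ => 0) (ex (0 : Fin G.q → ℝ)) X y := by
    have h2 : ∀ a < qd G.l G.κ, (TrivSqZeroExt.inl (ex y a) +
        TrivSqZeroExt.inr (if a = k then (1 : ℝ) else 0) : DualNumber ℝ) =
        TrivSqZeroExt.inl (ex y a) + TrivSqZeroExt.inr (ex (0 : Fin G.q → ℝ) a) := by
      intro a ha
      have ha' : a < G.q := ha
      have h3 : (if a = k then (1 : ℝ) else 0) = ex (0 : Fin G.q → ℝ) a := by
        rw [if_neg (by omega), h0]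
      rw [h3]
    exact congrArg TrivSqZeroExt.snd (Ft_congr _ _ _ _ _ _ _ _ _ _ _ _ h2)
  rw [h1, dF_eq]
  simp only [Pi.zero_apply, mul_zero, sum_const_zero, add_zero]

/-- **(P0) derivatives** -/
theorem stmtDeriv : Dat.StmtDeriv := by
  intro G c X U y W t
  have h := hasDerivAt_eval (Sum.elim X y) (Sum.elim U W) (PP G c) t
  have h1 : ∀ t : ℝ, (Sum.elim X y : Vr G → ℝ) + t • Sum.elim U W =
      Sum.elim (X + t • U) (y + t • W) := by
    intro t
    funext i
    rcases i with i | i <;> rfl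
  simp only [h1, eval_PP] at h
  rw [Fintype.sum_sum_type] at h
  simp only [dX_eq, dY_eq]
  exact h

/-- **(P0) continuity** -/
theorem stmtCont : Dat.StmtCont := by
  intro G c
  have h0 : Continuous fun p : (Fin G.n → ℝ) × (Fin G.q → ℝ) => (Sum.elim p.1 p.2 : Vr G → ℝ) := by
    refine continuous_pi fun i => ?_
    rcases i with i | i
    · exact (continuous_apply i).comp continuous_fst
    · exact (continuous_apply i).comp continuous_snd
  have h1 : ∀ P : MvPolynomial (Vr G) ℝ, Continuous fun p : (Fin G.n → ℝ) × (Fin G.q → ℝ) =>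
      MvPolynomial.eval (Sum.elim p.1 p.2 : Vr G → ℝ) P := fun P =>
    (MvPolynomial.continuous_eval P).comp h0
  refine ⟨?_, fun b => ?_, fun a => ?_⟩
  · simp only [← eval_PP]
    exact h1 _
  · simp only [dX_eq]
    exact h1 _
  · by_cases ha : a < G.q
    · have h2 : ∀ p : (Fin G.n → ℝ) × (Fin G.q → ℝ), G.dY c a p.1 p.2 =
          MvPolynomial.eval (Sum.elim p.1 p.2) (pderiv (Sum.inr ⟨a, ha⟩) (PP G c)) := fun p =>
        dY_eq G c ⟨a, ha⟩ p.1 p.2
      simp only [h2]
      exact h1 _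
    · simp only [dY_large G c (not_lt.1 ha)]
      exact continuous_const

/-! ## Degrees -/

section deg

variable {ι : Type}

theorem pf_cerr {V : ℕ → (ι → ℝ) → ℝ} {w : (ι → ℝ) → ℝ} (hV : ∀ i, PF 2 (V i)) (hw : PF 1 w)
    (c : ER.Con) : PF 4 (fun a => cerr (fun i => V i a) (w a) c) := by
  cases c with
  | one i => exact (hw.mul ((hV i).sub (hw.mono (by norm_num)))).mono (by norm_num)
  | add i j k => exact (hw.mul (((hV i).add (hV j)).sub (hV k))).mono (by norm_num)
  | mul i j k =>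
    exact PF.sub (((hV i).mul (hV j)).mono (by norm_num)) ((hw.mul (hV k)).mono (by norm_num))

theorem pf_qsum {V : ℕ → (ι → ℝ) → ℝ} {w : (ι → ℝ) → ℝ} (hV : ∀ i, PF 2 (V i)) (hw : PF 1 w)
    (S : List ER.Con) : PF 8 (fun a => qsum (fun i => V i a) (w a) S) := by
  induction S with
  | nil => exact PF.const 8 0
  | cons c S ih =>
    simp only [qsum_cons]
    exact (((pf_cerr hV hw c).pow 2).mono (by norm_num)).add ih

theorem pf_hc {y : ℕ → (ι → ℝ) → ℝ} (hy : ∀ k, PF 1 (y k)) (l j : ℕ) :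
    PF 1 (fun a => hc l (fun k => y k a) j) := by
  unfold hc
  by_cases h : j = 0
  · simp only [if_pos h]
    exact hy 0
  · simp only [if_neg h]
    exact hy _

theorem pf_F0 (eX : Fin G.n → ι) {y : ℕ → (ι → ℝ) → ℝ} (hy : ∀ k, PF 1 (y k)) :
    PF (2 * G.n + 20) (fun a : ι → ℝ => F0 G.loc G.S G.κ G.D G.C G.B G.β (fun b => a (eX b))
      (fun k => y k a)) := by
  unfold F0 Gt pen
  have hpick : ∀ i, PF 2 (fun a : ι → ℝ => pick G.loc (fun j => y 0 a * (G.D * a (eX j)))
      (fun _ => (0 : ℝ)) (fun j : Fin G.l => y (j + 1) a) i) := by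
    intro i
    unfold pick
    rcases G.loc i with j | j | j
    · exact ((hy 0).mul ((PF.const 0 G.D).mul (PF.coord le_rfl _))).mono (by norm_num)
    · exact PF.const 2 0
    · exact (hy _).mono (by norm_num)
  refine PF.sub (PF.add (PF.add (PF.const _ _) ?_) ?_) ?_
  · refine ((PF.const 0 G.C).mul (d := 0) (e := 8) (PF.add (PF.sub ?_ ?_) ?_)).mono (by omega)
    · exact ((PF.const 0 G.D).mul (pf_qsum hpick (hy 0) G.S)).mono (by norm_num)
    · exact ((pf_hc hy G.l G.κ).mul (PF.const 0 _)).mono (by norm_num)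
    · refine ((PF.const 0 G.B).mul (d := 0) (e := 8) (PF.add ?_ ?_)).mono (by norm_num)
      · exact (((PF.sum _ fun k _ => (hy k).pow 2).sub (PF.const 2 _)).pow 2).mono (by norm_num)
      · refine PF.sum _ fun j _ => ?_
        exact (((((pf_hc hy G.l (j + 1)).mul (PF.const 0 1)).mono (by norm_num :
          1 + 0 ≤ 2)).sub ((pf_hc hy G.l j).pow 2)).pow 2).mono (by norm_num)
  · exact ((PF.const 0 G.β).mul (PF.sum _ fun k _ => (hy k).pow (2 * G.n + 4))).mono (by omega)
  · exact (PF.sum _ fun b _ => (PF.coord le_rfl (eX b)).pow 2).mono (by omega)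

end deg

theorem F_zero (X : Fin G.n → ℝ) (y : Fin G.q → ℝ) :
    G.F 0 X y = F0 G.loc G.S G.κ G.D G.C G.B G.β X (ex y) := by
  unfold Dat.F Ft Pc
  simp only [Pi.zero_apply, zero_mul, sum_const_zero, add_zero]

theorem pf_F_zero (ι : Type) (eX : Fin G.n → ι) (eY : Fin G.q → ι) :
    PF (2 * G.n + 20) (fun a : ι → ℝ => G.F 0 (fun b => a (eX b)) (fun k => a (eY k))) := by
  simp only [F_zero]
  have hy : ∀ k : ℕ, PF 1 (fun a : ι → ℝ => ex (fun k => a (eY k)) k) := by
    intro k
    unfold ex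
    by_cases h : k < G.q
    · simp only [dif_pos h]
      exact PF.coord le_rfl _
    · simp only [dif_neg h]
      exact PF.const 1 0
  exact pf_F0 G eX hy

theorem deg_PP : (PP G 0).totalDegree ≤ 2 * G.n + 20 := by
  obtain ⟨p, hp, h⟩ := pf_F_zero G (Vr G) Sum.inl Sum.inr
  have : PP G 0 = p := by
    apply MvPolynomial.funext
    intro x
    have hx : x = Sum.elim (fun b => x (Sum.inl b)) (fun k => x (Sum.inr k)) := by
      funext i
      rcases i with i | i <;> rfl
    rw [h x]
    conv_lhs => rw [hx]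
    exact eval_PP G 0 _ _
  rw [this]
  exact hp

theorem pf_of_poly {ι : Type} {P : MvPolynomial (Vr G) ℝ} {d : ℕ} (hP : P.totalDegree ≤ d)
    (eX : Fin G.n → ι) (eY : Fin G.q → ι) :
    PF d (fun a : ι → ℝ => MvPolynomial.eval (Sum.elim (fun b => a (eX b)) (fun k => a (eY k))) P) := by
  refine ⟨MvPolynomial.rename (Sum.elim eX eY) P,
    (MvPolynomial.totalDegree_rename_le _ _).trans hP, fun a => ?_⟩
  rw [MvPolynomial.eval_rename]
  congr 1
  congr 1
  funext i
  rcases i with i | i <;> rfl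

/-- **(P0) degrees** -/
theorem stmtDeg : Dat.StmtDeg := by
  intro G ι eX eY
  refine ⟨pf_F_zero G ι eX eY, fun b => ?_, fun k hk => ?_⟩
  · simp only [dX_eq]
    exact pf_of_poly G ((totalDegree_pderiv_le _ _).trans (deg_PP G)) eX eY
  · have h : ∀ a : ι → ℝ, G.dY 0 k (fun b => a (eX b)) (fun k => a (eY k)) =
        MvPolynomial.eval (Sum.elim (fun b => a (eX b)) (fun k => a (eY k)))
          (pderiv (Sum.inr ⟨k, hk⟩) (PP G 0)) := fun a => dY_eq G 0 ⟨k, hk⟩ _ _
    simp only [h]
    exact pf_of_poly G ((totalDegree_pderiv_le _ _).trans (deg_PP G)) eX eY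

end Pool.Agent.T9h94.Iso
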