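import Pool.Agent.T9h85.Iso.P1b

/-! # (P1) for good parameters the critical systems have finitely many separated solutions -/

set_option autoImplicit false

namespace Pool.Agent.T9h94.Iso

open Finset

variable (G : Dat)

section chart

variable {s j : ℕ} (hs : s < G.S0) (hj : j ≤ G.n)

/-- the other parameters -/
abbrev Fr : Type := {k : Fin G.L // k ∉ Set.range (emb G hs hj)}

noncomputable instance instFr : Fintype (Fr G hs hj) := Fintype.ofFinite _

/-- the free variables -/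
abbrev Va : Type := Fin G.n ⊕ (Unit ⊕ ((Fin (j + 1) × Fin G.q) ⊕ (Fin j ⊕ Fr G hs hj)))

theorem card_va : Fintype.card (Va G hs hj) = G.L := by
  have h := sum_emb (emb G hs hj) (emb_injective G hs hj) (fun _ => (1 : ℕ))
  simp only [sum_const, card_univ, smul_eq_mul, mul_one, Fintype.card_fin, Fintype.card_sum] at h
  have h1 := card_col G j
  simp only [Fintype.card_sum] at h1
  simp only [Fintype.card_sum, Fintype.card_fin, Fintype.card_prod, Fintype.card_unit] at h h1 ⊢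
  rw [h, h1]
  ring

def vX (a : Va G hs hj → ℝ) (b : Fin G.n) : ℝ := a (Sum.inl b)

def vv (a : Va G hs hj → ℝ) : ℝ := a (Sum.inr (Sum.inl ()))

def vy (a : Va G hs hj → ℝ) (i : Fin (j + 1)) (k : Fin G.q) : ℝ :=
  a (Sum.inr (Sum.inr (Sum.inl (i, k))))

def vc (a : Va G hs hj → ℝ) (k : Fr G hs hj) : ℝ :=
  a (Sum.inr (Sum.inr (Sum.inr (Sum.inr k))))

noncomputable def vw (a : Va G hs hj → ℝ) (i : Fin (j + 1)) : ℝ :=
  Fin.lastCases (motive := fun _ => ℝ)
    (1 - ∑ i : Fin j, a (Sum.inr (Sum.inr (Sum.inr (Sum.inl i)))))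
    (fun i => a (Sum.inr (Sum.inr (Sum.inr (Sum.inl i))))) i

/-- the parameters of the linear term -/
noncomputable def cX (a : Va G hs hj → ℝ) (b : Fin G.n) : ℝ :=
  -∑ i, vw G hs hj a i * G.dX 0 b (vX G hs hj a) (vy G hs hj a i)

/-- the right hand sides -/
noncomputable def rhs (a : Va G hs hj → ℝ) : Row G j → ℝ
  | Sum.inl i => vv G hs hj a - G.F 0 (vX G hs hj a) (vy G hs hj a i) -
      ∑ b, cX G hs hj a b * vX G hs hj a b -
      ∑ k : Fr G hs hj, vc G hs hj a k * coefV G k (vX G hs hj a) (ex (vy G hs hj a i))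
  | Sum.inr (i, k) => -G.dY 0 k (vX G hs hj a) (vy G hs hj a i) -
      ∑ k' : Fr G hs hj, vc G hs hj a k' * coefY G k' k (ex (vy G hs hj a i))

/-- the determinant -/
noncomputable def vD (a : Va G hs hj → ℝ) : ℝ := (matA G s (vy G hs hj a)).det

/-- the numerators -/
noncomputable def vN (a : Va G hs hj → ℝ) (c : Col G j) : ℝ :=
  ∑ r, (matA G s (vy G hs hj a)).adjugate c r * rhs G hs hj a (rowEquiv G j r)

open Classical in
/-- all numerators -/
noncomputable def vF (x : (Va G hs hj → ℝ) → ℝ) : Option (Fin G.L) → (Va G hs hj → ℝ) → ℝ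
  | none => fun a => x a * vD G hs hj a
  | some k => fun a => if h : k ∈ Set.range (emb G hs hj) then
      (match h.choose with
        | Sum.inl b => cX G hs hj a b * vD G hs hj a
        | Sum.inr c => vN G hs hj a c)
      else vc G hs hj a ⟨k, h⟩ * vD G hs hj a

/-! ## Degrees -/

theorem pf_X (b : Fin G.n) : PF 1 (fun a : Va G hs hj → ℝ => vX G hs hj a b) :=
  PF.coord le_rfl _

theorem pf_v : PF 1 (fun a : Va G hs hj → ℝ => vv G hs hj a) := PF.coord le_rfl _

theorem pf_c (k : Fr G hs hj) : PF 1 (fun a : Va G hs hj → ℝ => vc G hs hj a k) :=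
  PF.coord le_rfl _

theorem pf_w (i : Fin (j + 1)) : PF 1 (fun a : Va G hs hj → ℝ => vw G hs hj a i) := by
  unfold vw
  refine Fin.lastCases ?_ (fun i => ?_) i
  · simp only [Fin.lastCases_last]
    exact (PF.const 1 1).sub (PF.sum _ fun i _ => PF.coord le_rfl _)
  · simp only [Fin.lastCases_castSucc]
    exact PF.coord le_rfl _

theorem pf_ex (i : Fin (j + 1)) (k : ℕ) :
    PF 1 (fun a : Va G hs hj → ℝ => ex (vy G hs hj a i) k) := by
  unfold ex
  by_cases h : k < G.q
  · simp only [dif_pos h]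
    exact PF.coord le_rfl _
  · simp only [dif_neg h]
    exact PF.const 1 0

theorem pf_mn (i : Fin (j + 1)) (k : ℕ) :
    PF 1 (fun a : Va G hs hj → ℝ => mn k (ex (vy G hs hj a i))) := by
  unfold mn
  by_cases h : k = 0
  · simp only [if_pos h]
    exact PF.const 1 1
  · simp only [if_neg h]
    exact pf_ex G hs hj i k

theorem pf_zs (s' : ℕ) (i : Fin (j + 1)) :
    PF 1 (fun a : Va G hs hj → ℝ => zs G.q s' (ex (vy G hs hj a i))) := by
  unfold zs
  refine PF.sum _ fun b _ => ?_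
  have := (PF.const (ι := Va G hs hj) 0 ((s' : ℝ) ^ b)).mul (pf_ex G hs hj i b)
  rwa [zero_add] at this

theorem pf_E (s' k d : ℕ) (hd : d < 2 * (G.n + 1)) (i : Fin (j + 1)) :
    PF (2 * G.n + 2) (fun a : Va G hs hj → ℝ => E G.q s' k d (ex (vy G hs hj a i))) :=
  ((pf_mn G hs hj i k).mul ((pf_zs G hs hj s' i).pow d)).mono (by omega)

theorem pf_E' (s' k d m : ℕ) (hd : d < 2 * (G.n + 1)) (i : Fin (j + 1)) :
    PF (2 * G.n + 2) (fun a : Va G hs hj → ℝ => E' G.q s' k d m (ex (vy G hs hj a i))) := by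
  unfold E'
  refine PF.add ?_ ?_
  · exact ((PF.const 0 _).mul ((pf_zs G hs hj s' i).pow d)).mono (by omega)
  · exact ((pf_mn G hs hj i k).mul (((PF.const 0 _).mul ((pf_zs G hs hj s' i).pow (d - 1))).mul
      (PF.const 0 _))).mono (by omega)

theorem pf_coefV (k : ℕ) (i : Fin (j + 1)) : PF (2 * G.n + 2)
    (fun a : Va G hs hj → ℝ => coefV G k (vX G hs hj a) (ex (vy G hs hj a i))) := by
  unfold coefV
  by_cases h : k < G.n
  · simp only [dif_pos h]
    exact (pf_X G hs hj _).mono (by omega)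
  · simp only [dif_neg h]
    exact pf_E G hs hj _ _ _ (Nat.mod_lt _ (by omega)) i

theorem pf_coefY (k m : ℕ) (i : Fin (j + 1)) : PF (2 * G.n + 2)
    (fun a : Va G hs hj → ℝ => coefY G k m (ex (vy G hs hj a i))) := by
  unfold coefY
  by_cases h : k < G.n
  · simp only [if_pos h]
    exact PF.const _ 0
  · simp only [if_neg h]
    exact pf_E' G hs hj _ _ _ _ (Nat.mod_lt _ (by omega)) i

theorem pf_cX (hdeg : Dat.StmtDeg) (b : Fin G.n) :
    PF (2 * G.n + 21) (fun a : Va G hs hj → ℝ => cX G hs hj a b) := by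
  unfold cX
  refine PF.neg (PF.sum _ fun i _ => ?_)
  exact ((pf_w G hs hj i).mul ((hdeg G (Va G hs hj) (fun b => Sum.inl b)
    (fun k => Sum.inr (Sum.inr (Sum.inl (i, k))))).2.1 b)).mono (by omega)

theorem pf_rhs (hdeg : Dat.StmtDeg) (r : Row G j) :
    PF (2 * G.n + 22) (fun a : Va G hs hj → ℝ => rhs G hs hj a r) := by
  rcases r with i | ⟨i, k⟩
  · simp only [rhs]
    refine PF.sub (PF.sub (PF.sub ?_ ?_) ?_) ?_
    · exact (pf_v G hs hj).mono (by omega)
    · exact ((hdeg G (Va G hs hj) (fun b => Sum.inl b)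
        (fun k => Sum.inr (Sum.inr (Sum.inl (i, k))))).1).mono (by omega)
    · exact PF.sum _ fun b _ => ((pf_cX G hs hj hdeg b).mul (pf_X G hs hj b)).mono (by omega)
    · exact PF.sum _ fun k _ => ((pf_c G hs hj k).mul (pf_coefV G hs hj k i)).mono (by omega)
  · simp only [rhs]
    refine PF.sub (PF.neg ?_) ?_
    · exact ((hdeg G (Va G hs hj) (fun b => Sum.inl b)
        (fun k => Sum.inr (Sum.inr (Sum.inl (i, k))))).2.2 k k.2).mono (by omega)
    · exact PF.sum _ fun k' _ => ((pf_c G hs hj k').mul (pf_coefY G hs hj k' k i)).mono (by omega)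

theorem pf_matA (r c : Col G j) : PF (2 * G.n + 2)
    (fun a : Va G hs hj → ℝ => matA G s (vy G hs hj a) r c) := by
  simp only [matA, Matrix.of_apply]
  rcases rowEquiv G j r with i | ⟨i, k⟩
  · exact pf_E G hs hj _ _ _ (colD_lt G hj c) i
  · exact pf_E' G hs hj _ _ _ _ (colD_lt G hj c) i

/-- the degree of the determinant -/
theorem card_le (hj : j ≤ G.n) :
    Fintype.card (Col G j) * (2 * G.n + 2) ≤ (G.n + 1) * (G.q + 1) * (2 * G.n + 2) := by
  rw [card_col]
  exact Nat.mul_le_mul_right _ (Nat.mul_le_mul_right _ (by omega))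

theorem pf_D : PF ((G.n + 1) * (G.q + 1) * (2 * G.n + 2))
    (fun a : Va G hs hj → ℝ => vD G hs hj a) :=
  (PF.det fun r c => pf_matA G hs hj r c).mono (card_le G hj)

theorem pf_N (hdeg : Dat.StmtDeg) (c : Col G j) :
    PF ((G.n + 1) * (G.q + 1) * (2 * G.n + 2) + 2 * G.n + 40)
      (fun a : Va G hs hj → ℝ => vN G hs hj a c) := by
  unfold vN
  refine PF.sum _ fun r _ => ?_
  exact (((PF.adj (fun r c => pf_matA G hs hj r c) c r).mono (card_le G hj)).mul
    (pf_rhs G hs hj hdeg (rowEquiv G j r))).mono (by omega)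

theorem pf_F (hdeg : Dat.StmtDeg) (x : (Va G hs hj → ℝ) → ℝ) (hx : PF 1 x)
    (k : Option (Fin G.L)) :
    PF ((G.n + 1) * (G.q + 1) * (2 * G.n + 2) + 2 * G.n + 40) (vF G hs hj x k) := by
  classical
  rcases k with - | k
  · exact (hx.mul (pf_D G hs hj)).mono (by omega)
  · unfold vF
    by_cases h : k ∈ Set.range (emb G hs hj)
    · simp only [dif_pos h]
      rcases h.choose with b | c
      · exact ((pf_cX G hs hj hdeg b).mul (pf_D G hs hj)).mono (by omega)
      · exact pf_N G hs hj hdeg c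
    · simp only [dif_neg h]
      exact ((pf_c G hs hj ⟨k, h⟩).mul (pf_D G hs hj)).mono (by omega)

/-! ## Solutions -/

/-- the free variables of a solution -/
def pt (c : ℕ → ℝ) (X : Fin G.n → ℝ) (v : ℝ) (y : Fin (j + 1) → Fin G.q → ℝ)
    (w : Fin (j + 1) → ℝ) : Va G hs hj → ℝ :=
  Sum.elim X (Sum.elim (fun _ => v) (Sum.elim (fun p => y p.1 p.2)
    (Sum.elim (fun i => w i.castSucc) (fun k => c (k : Fin G.L)))))

theorem vw_pt {c : ℕ → ℝ} {X : Fin G.n → ℝ} {v : ℝ} {y : Fin (j + 1) → Fin G.q → ℝ}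
    {w : Fin (j + 1) → ℝ} (h : ∑ i, w i = 1) (i : Fin (j + 1)) :
    vw G hs hj (pt G hs hj c X v y w) i = w i := by
  unfold vw
  refine Fin.lastCases ?_ (fun i => ?_) i
  · rw [Fin.lastCases_last, ← h, Fin.sum_univ_castSucc]
    simp only [pt, Sum.elim_inr, Sum.elim_inl]
    ring
  · rw [Fin.lastCases_castSucc]
    rfl

theorem cX_pt {c : ℕ → ℝ} {X : Fin G.n → ℝ} {v : ℝ} {y : Fin (j + 1) → Fin G.q → ℝ}
    {w : Fin (j + 1) → ℝ} (h : G.Sol c j X v y w) (b : Fin G.n) :
    cX G hs hj (pt G hs hj c X v y w) b = c b := by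
  unfold cX
  have h1 := h.gX b
  simp only [dX_affine G c, mul_add, sum_add_distrib, ← sum_mul, h.sum, one_mul] at h1
  have h2 : ∑ i, vw G hs hj (pt G hs hj c X v y w) i *
      G.dX 0 b (vX G hs hj (pt G hs hj c X v y w)) (vy G hs hj (pt G hs hj c X v y w) i) =
      ∑ i, w i * G.dX 0 b X (y i) := by
    refine sum_congr rfl fun i _ => ?_
    rw [vw_pt G hs hj h.sum]
    rfl
  rw [h2]
  linarith

theorem rows_pt {c : ℕ → ℝ} {X : Fin G.n → ℝ} {v : ℝ} {y : Fin (j + 1) → Fin G.q → ℝ}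
    {w : Fin (j + 1) → ℝ} (h : G.Sol c j X v y w) (r : Row G j) :
    ∑ c' : Col G j, coefA G s y r c' * c (colIdx G s c') =
      rhs G hs hj (pt G hs hj c X v y w) r := by
  rcases r with i | ⟨i, k⟩
  · have h1 := h.val i
    rw [F_sum, sum_emb (emb G hs hj) (emb_injective G hs hj), Fintype.sum_sum_type] at h1
    simp only [coefV_inl, coefV_inr] at h1
    have h2 : ∑ b, cX G hs hj (pt G hs hj c X v y w) b *
        vX G hs hj (pt G hs hj c X v y w) b = ∑ b : Fin G.n, c b * X b := by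
      refine sum_congr rfl fun b _ => ?_
      rw [cX_pt G hs hj h]
      rfl
    simp only [rhs]
    rw [h2]
    change _ = v - G.F 0 X (y i) - ∑ b : Fin G.n, c b * X b -
      ∑ k : Fr G hs hj, c (k : Fin G.L) * coefV G (k : Fin G.L) X (ex (y i))
    have h3 : ∑ c' : Col G j, coefA G s y (Sum.inl i) c' * c (colIdx G s c') =
        ∑ x : Col G j, c (emb G hs hj (Sum.inr x) : ℕ) *
          E G.q s (colA G x) (colD G x) (ex (y i)) := by
      refine sum_congr rfl fun c' _ => ?_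
      rw [mul_comm]
      rfl
    have h4 : ∑ b : Fin G.n, c (emb G hs hj (Sum.inl b) : ℕ) * X b =
        ∑ b : Fin G.n, c b * X b := rfl
    rw [h3]
    rw [h4] at h1
    linarith
  · have h1 := h.gy i k k.2
    rw [dY_sum G c k.2, sum_emb (emb G hs hj) (emb_injective G hs hj),
      Fintype.sum_sum_type] at h1
    simp only [coefY_inl, coefY_inr, mul_zero, sum_const_zero, zero_add] at h1
    simp only [rhs]
    change _ = -G.dY 0 k X (y i) -
      ∑ k' : Fr G hs hj, c (k' : Fin G.L) * coefY G (k' : Fin G.L) k (ex (y i))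
    have h3 : ∑ c' : Col G j, coefA G s y (Sum.inr (i, k)) c' * c (colIdx G s c') =
        ∑ x : Col G j, c (emb G hs hj (Sum.inr x) : ℕ) *
          E' G.q s (colA G x) (colD G x) k (ex (y i)) := by
      refine sum_congr rfl fun c' _ => ?_
      rw [mul_comm]
      rfl
    rw [h3]
    linarith

theorem col_pt {c : ℕ → ℝ} {X : Fin G.n → ℝ} {v : ℝ} {y : Fin (j + 1) → Fin G.q → ℝ}
    {w : Fin (j + 1) → ℝ} (h : G.Sol c j X v y w) (c' : Col G j) :
    c (colIdx G s c') * vD G hs hj (pt G hs hj c X v y w) =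
      vN G hs hj (pt G hs hj c X v y w) c' := by
  unfold vD vN
  have hy : vy G hs hj (pt G hs hj c X v y w) = y := rfl
  rw [hy]
  have h1 : (matA G s y).mulVec (fun c' => c (colIdx G s c')) =
      fun r => rhs G hs hj (pt G hs hj c X v y w) (rowEquiv G j r) := by
    funext r
    exact rows_pt G hs hj h (rowEquiv G j r)
  have h2 : (matA G s y).adjugate.mulVec ((matA G s y).mulVec (fun c' => c (colIdx G s c'))) =
      (matA G s y).det • fun c' => c (colIdx G s c') := by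
    rw [Matrix.mulVec_mulVec, Matrix.adjugate_mul, Matrix.smul_mulVec, Matrix.one_mulVec]
  rw [h1] at h2
  have h3 := congrFun h2 c'
  simp only [Pi.smul_apply, smul_eq_mul] at h3
  rw [mul_comm, ← h3]
  rfl

theorem F_pt {c : ℕ → ℝ} {X : Fin G.n → ℝ} {v : ℝ} {y : Fin (j + 1) → Fin G.q → ℝ}
    {w : Fin (j + 1) → ℝ} (h : G.Sol c j X v y w) (x : (Va G hs hj → ℝ) → ℝ)
    (k : Option (Fin G.L)) :
    (k.elim (x (pt G hs hj c X v y w)) (fun k => c k)) * vD G hs hj (pt G hs hj c X v y w) =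
      vF G hs hj x k (pt G hs hj c X v y w) := by
  classical
  rcases k with - | k
  · rfl
  · simp only [Option.elim_some, vF]
    by_cases hk : k ∈ Set.range (emb G hs hj)
    · rw [dif_pos hk]
      have h1 := hk.choose_spec
      generalize hk.choose = r at h1
      rcases r with b | c'
      · simp only
        rw [cX_pt G hs hj h, ← h1]
        rfl
      · simp only
        rw [← col_pt G hs hj h, ← h1]
        rfl
    · rw [dif_neg hk]
      rfl

/-- the relation -/
theorem relation (hdeg : Dat.StmtDeg) (x : (Va G hs hj → ℝ) → ℝ) (hx : PF 1 x) :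
    ∃ Q : MvPolynomial (Option (Fin G.L)) ℝ, Q ≠ 0 ∧
      (∀ k, Q.degreeOf k ≤
        (((G.n + 1) * (G.q + 1) * (2 * G.n + 2) + 2 * G.n + 40) * (G.L + 1) + 1) ^ G.L) ∧
      ∀ (c : ℕ → ℝ) (X : Fin G.n → ℝ) (v : ℝ) (y : Fin (j + 1) → Fin G.q → ℝ)
        (w : Fin (j + 1) → ℝ), G.Sol c j X v y w →
        (Function.Injective fun i => ∑ b : Fin G.q, (s : ℝ) ^ (b : ℕ) * y i b) →
        MvPolynomial.eval (fun o : Option (Fin G.L) =>
          o.elim (x (pt G hs hj c X v y w)) (fun k => c k)) Q = 0 := by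
  have hcard : Fintype.card (Option (Fin G.L)) = Fintype.card (Va G hs hj) + 1 := by
    rw [Fintype.card_option, Fintype.card_fin, card_va]
  obtain ⟨Q, hQ0, hQ, hQe⟩ := exists_relation hcard
    ((G.n + 1) * (G.q + 1) * (2 * G.n + 2) + 2 * G.n + 40)
    (vF G hs hj x) (pf_F G hs hj hdeg x hx) (vD G hs hj) ((pf_D G hs hj).mono (by omega))
  refine ⟨Q, hQ0, fun k => ?_, fun c X v y w h hy => ?_⟩
  · have := hQ k
    rwa [card_va, Fintype.card_option, Fintype.card_fin] at this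
  · exact hQe (pt G hs hj c X v y w) (det_ne_zero G s y hy) _ fun k => F_pt G hs hj h x k

end chart

/-- the coordinates of the solutions -/
abbrev Co : Type := Fin G.n ⊕ (Unit ⊕ ((Fin (G.n + 1) × Fin G.q) ⊕ Fin (G.n + 1)))

/-- the coordinates of a solution -/
noncomputable def cd {j : ℕ} (X : Fin G.n → ℝ) (v : ℝ) (y : Fin (j + 1) → Fin G.q → ℝ)
    (w : Fin (j + 1) → ℝ) : Co G → ℝ
  | Sum.inl b => X b
  | Sum.inr (Sum.inl _) => v
  | Sum.inr (Sum.inr (Sum.inl (i, k))) => if h : (i : ℕ) < j + 1 then y ⟨i, h⟩ k else 0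
  | Sum.inr (Sum.inr (Sum.inr i)) => if h : (i : ℕ) < j + 1 then w ⟨i, h⟩ else 0

theorem exists_poly (hdeg : Dat.StmtDeg) {s j : ℕ} (hs : s < G.S0) (hj : j ≤ G.n) (t : Co G) :
    ∃ Q : MvPolynomial (Option (Fin G.L)) ℝ, Q ≠ 0 ∧
      (∀ k, Q.degreeOf k ≤
        (((G.n + 1) * (G.q + 1) * (2 * G.n + 2) + 2 * G.n + 40) * (G.L + 1) + 1) ^ G.L) ∧
      ∀ (c : ℕ → ℝ) (X : Fin G.n → ℝ) (v : ℝ) (y : Fin (j + 1) → Fin G.q → ℝ)
        (w : Fin (j + 1) → ℝ), G.Sol c j X v y w →
        (Function.Injective fun i => ∑ b : Fin G.q, (s : ℝ) ^ (b : ℕ) * y i b) →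
        MvPolynomial.eval (fun o : Option (Fin G.L) =>
          o.elim (cd G X v y w t) (fun k => c k)) Q = 0 := by
  rcases t with b | (- | (⟨i, k⟩ | i))
  · exact relation G hs hj hdeg (fun a => vX G hs hj a b) (pf_X G hs hj b)
  · exact relation G hs hj hdeg (fun a => vv G hs hj a) (pf_v G hs hj)
  · by_cases hi : (i : ℕ) < j + 1
    · obtain ⟨Q, h1, h2, h3⟩ := relation G hs hj hdeg (fun a => vy G hs hj a ⟨i, hi⟩ k)
        (PF.coord le_rfl _)
      refine ⟨Q, h1, h2, fun c X v y w h hy => ?_⟩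
      have := h3 c X v y w h hy
      simp only [cd]
      rw [dif_pos hi]
      exact this
    · obtain ⟨Q, h1, h2, h3⟩ := relation G hs hj hdeg (fun _ => 0) (PF.const 1 0)
      refine ⟨Q, h1, h2, fun c X v y w h hy => ?_⟩
      have := h3 c X v y w h hy
      simp only [cd]
      rw [dif_neg hi]
      exact this
  · by_cases hi : (i : ℕ) < j + 1
    · obtain ⟨Q, h1, h2, h3⟩ := relation G hs hj hdeg (fun a => vw G hs hj a ⟨i, hi⟩)
        (pf_w G hs hj _)
      refine ⟨Q, h1, h2, fun c X v y w h hy => ?_⟩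
      have := h3 c X v y w h hy
      rw [vw_pt G hs hj h.sum] at this
      simp only [cd]
      rw [dif_pos hi]
      exact this
    · obtain ⟨Q, h1, h2, h3⟩ := relation G hs hj hdeg (fun _ => 0) (PF.const 1 0)
      refine ⟨Q, h1, h2, fun c X v y w h hy => ?_⟩
      have := h3 c X v y w h hy
      simp only [cd]
      rw [dif_neg hi]
      exact this

/-- **(P1)** -/
theorem stmtParams (hdeg : Dat.StmtDeg) : Dat.StmtParams := by
  classical
  intro G nb hnb η hη
  set T : ℕ := (((G.n + 1) * (G.q + 1) * (2 * G.n + 2) + 2 * G.n + 40) * (G.L + 1) + 1) ^ G.L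
    with hT
  let I : Type := Fin (G.n + 1) × Fin G.S0 × Co G
  have hQ : ∀ i : I, ∃ Q : MvPolynomial (Option (Fin G.L)) ℝ, Q ≠ 0 ∧
      (∀ k, Q.degreeOf k ≤ T) ∧
      ∀ (c : ℕ → ℝ) (X : Fin G.n → ℝ) (v : ℝ) (y : Fin ((i.1 : ℕ) + 1) → Fin G.q → ℝ)
        (w : Fin ((i.1 : ℕ) + 1) → ℝ), G.Sol c i.1 X v y w →
        (Function.Injective fun i' => ∑ b : Fin G.q, ((i.2.1 : ℕ) : ℝ) ^ (b : ℕ) * y i' b) →
        MvPolynomial.eval (fun o : Option (Fin G.L) =>
          o.elim (cd G X v y w i.2.2) (fun k => c k)) Q = 0 := fun i =>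
    exists_poly G hdeg i.2.1.2 (Nat.lt_succ_iff.1 i.1.2) i.2.2
  choose Q hQ0 hQT hQe using hQ
  have hI : Fintype.card I = (G.n + 1) * G.S0 * (G.n + 1 + (G.n + 1) * (G.q + 1)) := by
    simp only [I, Fintype.card_prod, Fintype.card_sum, Fintype.card_fin, Fintype.card_unit]
    ring
  have hN : Fintype.card I * T < 2 ^ nb := by
    have h1 : T ≤ 2 ^ (G.L * (((G.n + 1) * (G.q + 1) * (2 * G.n + 2) + 2 * G.n + 40) *
        (G.L + 1) + 1)) := by
      rw [hT, mul_comm G.L, pow_mul]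
      exact Nat.pow_le_pow_left (Nat.lt_two_pow_self).le _
    have h2 : Fintype.card I < 2 ^ Fintype.card I := Nat.lt_two_pow_self
    calc Fintype.card I * T < 2 ^ Fintype.card I * 2 ^ (G.L *
        (((G.n + 1) * (G.q + 1) * (2 * G.n + 2) + 2 * G.n + 40) * (G.L + 1) + 1)) :=
          Nat.mul_lt_mul_of_lt_of_le h2 h1 (by positivity)
      _ ≤ 2 ^ nb := by
        rw [← pow_add]
        apply Nat.pow_le_pow_right (by norm_num)
        refine le_trans ?_ hnb
        rw [hI]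
        unfold Dat.nbits
        omega
  obtain ⟨m, hm, hfin⟩ := exists_grid T (2 ^ nb) hN Q hQ0 (fun i k => hQT i k) η hη
  refine ⟨fun k => if h : k < G.L then m ⟨k, h⟩ else 0, fun k => ?_, fun j hj s hs => ?_⟩
  · by_cases h : k < G.L
    · simp only [dif_pos h]
      exact hm _
    · simp only [dif_neg h]
      positivity
  set c : ℕ → ℝ := fun k => η * ((if h : k < G.L then m ⟨k, h⟩ else 0 : ℕ) : ℝ) with hc
  have hck : ∀ k : Fin G.L, c k = η * m k := by
    intro k
    simp only [hc, dif_pos k.2]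
  -- the values of the coordinates
  let A : Co G → Set ℝ := fun t => {x : ℝ | MvPolynomial.eval (fun o : Option (Fin G.L) =>
    o.elim x (fun k => η * m k)) (Q (⟨j, by omega⟩, ⟨s, hs⟩, t)) = 0}
  have hA : ∀ t, (A t).Finite := fun t => hfin _
  have hmem : ∀ w : (Fin G.n → ℝ) × ℝ × (Fin (j + 1) → Fin G.q → ℝ) × (Fin (j + 1) → ℝ),
      G.Sol c j w.1 w.2.1 w.2.2.1 w.2.2.2 →
      (Function.Injective fun i => ∑ b : Fin G.q, (s : ℝ) ^ (b : ℕ) * w.2.2.1 i b) →
      ∀ t, cd G w.1 w.2.1 w.2.2.1 w.2.2.2 t ∈ A t := by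
    intro w h hy t
    have := hQe (⟨j, by omega⟩, ⟨s, hs⟩, t) c w.1 w.2.1 w.2.2.1 w.2.2.2 h hy
    simp only [hck] at this
    exact this
  refine Set.Finite.subset ((Set.Finite.pi' (t := fun b => A (Sum.inl b)) fun b => hA _).prod
    ((hA (Sum.inr (Sum.inl ()))).prod ((Set.Finite.pi' (t := fun i : Fin (j + 1) =>
      {f : Fin G.q → ℝ | ∀ k, f k ∈ A (Sum.inr (Sum.inr (Sum.inl (⟨i, by omega⟩, k))))})
      fun i => Set.Finite.pi' fun k => hA _).prod
      (Set.Finite.pi' (t := fun i : Fin (j + 1) => A (Sum.inr (Sum.inr (Sum.inr ⟨i, by omega⟩))))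
        fun i => hA _)))) ?_
  rintro w ⟨h, hy⟩
  have key := hmem w h hy
  refine ⟨fun b => key (Sum.inl b), key (Sum.inr (Sum.inl ())), fun i k => ?_, fun i => ?_⟩
  · have := key (Sum.inr (Sum.inr (Sum.inl (⟨i, by omega⟩, k))))
    simp only [cd] at this
    rw [dif_pos i.2] at this
    exact this
  · have := key (Sum.inr (Sum.inr (Sum.inr ⟨i, by omega⟩)))
    simp only [cd] at this
    rw [dif_pos i.2] at this
    exact this

end Pool.Agent.T9h94.Iso
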