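import Pool.Agent.T9h94.Iso.Sys

/-! # The critical system is affine in the parameters -/

set_option autoImplicit false

namespace Pool.Agent.T9h94.Iso

open Finset

/-- the coefficient of the parameter `(s, a, d)` in the value -/
noncomputable def E (q s a d : ℕ) (y : ℕ → ℝ) : ℝ := mn a y * zs q s y ^ d

/-- the coefficient of the parameter `(s, a, d)` in the derivative with respect to `y k` -/
noncomputable def E' (q s a d k : ℕ) (y : ℕ → ℝ) : ℝ :=
  (if a = k ∧ a ≠ 0 then 1 else 0) * zs q s y ^ d +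
    mn a y * (d * zs q s y ^ (d - 1) * (s : ℝ) ^ k)

theorem dual_E (q s a d : ℕ) (y W : ℕ → ℝ) :
    (mn a (fun a => (TrivSqZeroExt.inl (y a) + TrivSqZeroExt.inr (W a) : DualNumber ℝ)) *
      zs q s (fun a => (TrivSqZeroExt.inl (y a) + TrivSqZeroExt.inr (W a) : DualNumber ℝ)) ^ d).snd =
    (if a = 0 then 0 else W a) * zs q s y ^ d +
      mn a y * (d * zs q s y ^ (d - 1) * zs q s W) := by
  have h1 : (mn a (fun a => (TrivSqZeroExt.inl (y a) + TrivSqZeroExt.inr (W a) :
      DualNumber ℝ))).fst = mn a y := by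
    unfold mn
    split_ifs <;> simp
  have h2 : (mn a (fun a => (TrivSqZeroExt.inl (y a) + TrivSqZeroExt.inr (W a) :
      DualNumber ℝ))).snd = if a = 0 then 0 else W a := by
    unfold mn
    split_ifs <;> simp
  have h3 : (zs q s (fun a => (TrivSqZeroExt.inl (y a) + TrivSqZeroExt.inr (W a) :
      DualNumber ℝ))).fst = zs q s y := by
    unfold zs
    rw [TrivSqZeroExt.fst_sum]
    refine sum_congr rfl fun b _ => ?_
    simp
  have h4 : (zs q s (fun a => (TrivSqZeroExt.inl (y a) + TrivSqZeroExt.inr (W a) :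
      DualNumber ℝ))).snd = zs q s W := by
    unfold zs
    rw [TrivSqZeroExt.snd_sum]
    refine sum_congr rfl fun b _ => ?_
    rw [← Nat.cast_pow, ← Nat.cast_pow]
    simp
  rw [TrivSqZeroExt.snd_mul, TrivSqZeroExt.snd_pow, TrivSqZeroExt.fst_pow, h1, h2, h3, h4]
  simp only [smul_eq_mul, MulOpposite.smul_eq_mul_unop, MulOpposite.unop_op, nsmul_eq_mul,
    Nat.pred_eq_sub_one]
  ring

variable (G : Dat)

theorem F_affine (c : ℕ → ℝ) (X : Fin G.n → ℝ) (y : Fin G.q → ℝ) :
    G.F c X y = G.F 0 X y + (∑ b : Fin G.n, c b * X b +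
      ∑ s ∈ range G.S0, ∑ a ∈ range G.q, ∑ d ∈ range (2 * (G.n + 1)),
        c (G.n + ((s * G.q + a) * (2 * (G.n + 1)) + d)) * E G.q s a d (ex y)) := by
  unfold Dat.F Ft Pc E
  simp only [Pi.zero_apply, zero_mul, sum_const_zero, add_zero]
  rfl

theorem dF_affine (c : ℕ → ℝ) (U : Fin G.n → ℝ) (W : ℕ → ℝ) (X : Fin G.n → ℝ) (y : Fin G.q → ℝ) :
    G.dF c U W X y = G.dF 0 U W X y + (∑ b : Fin G.n, c b * U b +
      ∑ s ∈ range G.S0, ∑ a ∈ range G.q, ∑ d ∈ range (2 * (G.n + 1)),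
        c (G.n + ((s * G.q + a) * (2 * (G.n + 1)) + d)) *
          ((if a = 0 then 0 else W a) * zs G.q s (ex y) ^ d +
            mn a (ex y) * (d * zs G.q s (ex y) ^ (d - 1) * zs G.q s W))) := by
  unfold Dat.dF Ft Pc
  simp only [TrivSqZeroExt.snd_add, TrivSqZeroExt.snd_sum]
  have h1 : ∀ (x : ℝ) (z : DualNumber ℝ), (TrivSqZeroExt.inl x * z).snd = x * z.snd := by
    intro x z
    rw [TrivSqZeroExt.snd_mul]
    simp
  have h2 : ∀ (z : DualNumber ℝ), (TrivSqZeroExt.inl (0 : ℝ) * z).snd = 0 := by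
    intro z
    rw [h1, zero_mul]
  simp only [Pi.zero_apply, h2, sum_const_zero, add_zero]
  congr 1
  congr 1
  · refine sum_congr rfl fun b _ => ?_
    rw [h1]
    simp
  · refine sum_congr rfl fun s _ => sum_congr rfl fun a _ => sum_congr rfl fun d _ => ?_
    rw [h1]
    congr 1
    exact dual_E _ _ _ _ _ _

theorem zs_single {q s k : ℕ} (hk : k < q) :
    zs q s (fun a => if a = k then (1 : ℝ) else 0) = (s : ℝ) ^ k := by
  unfold zs
  rw [sum_eq_single k]
  · simp
  · intro b _ hb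
    simp [hb]
  · intro h
    exact absurd (mem_range.2 hk) h

theorem zs_zero (q s : ℕ) : zs q s (fun _ => (0 : ℝ)) = 0 := by
  unfold zs
  simp

theorem dX_affine (c : ℕ → ℝ) (b : Fin G.n) (X : Fin G.n → ℝ) (y : Fin G.q → ℝ) :
    G.dX c b X y = G.dX 0 b X y + c b := by
  unfold Dat.dX
  rw [dF_affine]
  congr 1
  simp only [zs_zero, mul_zero, ite_self, zero_mul, add_zero, sum_const_zero]
  rw [sum_eq_single b]
  · simp
  · intro b' _ hb
    simp [hb]
  · intro h
    exact absurd (mem_univ _) h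

theorem dY_affine (c : ℕ → ℝ) {k : ℕ} (hk : k < G.q) (X : Fin G.n → ℝ) (y : Fin G.q → ℝ) :
    G.dY c k X y = G.dY 0 k X y +
      ∑ s ∈ range G.S0, ∑ a ∈ range G.q, ∑ d ∈ range (2 * (G.n + 1)),
        c (G.n + ((s * G.q + a) * (2 * (G.n + 1)) + d)) * E' G.q s a d k (ex y) := by
  unfold Dat.dY
  rw [dF_affine]
  congr 1
  simp only [zs_single hk, mul_zero, sum_const_zero, zero_add]
  refine sum_congr rfl fun s _ => sum_congr rfl fun a _ => sum_congr rfl fun d _ => ?_
  unfold E'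
  by_cases h0 : a = 0
  · subst h0
    simp
  · by_cases hak : a = k
    · subst hak
      simp [h0]
    · simp [h0, hak]

/-! ## The parameters as one family -/

theorem sum_range_mul (f : ℕ → ℝ) (a b : ℕ) :
    ∑ t ∈ range (a * b), f t = ∑ i ∈ range a, ∑ j ∈ range b, f (i * b + j) := by
  induction a with
  | zero => simp
  | succ a ih => rw [sum_range_succ, ← ih, add_mul, one_mul, sum_range_add]

/-- the coefficient of the `k`-th parameter in the value -/
noncomputable def coefV (k : ℕ) (X : Fin G.n → ℝ) (y : ℕ → ℝ) : ℝ :=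
  if h : k < G.n then X ⟨k, h⟩ else
    E G.q ((k - G.n) / (2 * (G.n + 1)) / G.q) ((k - G.n) / (2 * (G.n + 1)) % G.q)
      ((k - G.n) % (2 * (G.n + 1))) y

/-- the coefficient of the `k`-th parameter in the derivative with respect to `y i` -/
noncomputable def coefY (k i : ℕ) (y : ℕ → ℝ) : ℝ :=
  if k < G.n then 0 else
    E' G.q ((k - G.n) / (2 * (G.n + 1)) / G.q) ((k - G.n) / (2 * (G.n + 1)) % G.q)
      ((k - G.n) % (2 * (G.n + 1))) i y

theorem q_pos : 0 < G.q := by
  unfold Dat.q qd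
  omega

theorem decode {n q s a d : ℕ} (ha : a < q) (hd : d < 2 * (n + 1)) :
    (n + ((s * q + a) * (2 * (n + 1)) + d) - n) / (2 * (n + 1)) / q = s ∧
    (n + ((s * q + a) * (2 * (n + 1)) + d) - n) / (2 * (n + 1)) % q = a ∧
    (n + ((s * q + a) * (2 * (n + 1)) + d) - n) % (2 * (n + 1)) = d := by
  rw [Nat.add_sub_cancel_left]
  have h1 : ((s * q + a) * (2 * (n + 1)) + d) / (2 * (n + 1)) = s * q + a := by
    rw [add_comm, Nat.add_mul_div_right _ _ (by omega), Nat.div_eq_of_lt hd, zero_add]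
  rw [h1]
  refine ⟨?_, ?_, ?_⟩
  · rw [add_comm, Nat.add_mul_div_right _ _ (by omega), Nat.div_eq_of_lt ha, zero_add]
  · rw [add_comm, Nat.add_mul_mod_self_right, Nat.mod_eq_of_lt ha]
  · rw [add_comm, Nat.add_mul_mod_self_right, Nat.mod_eq_of_lt hd]

theorem sum_params (f : ℕ → ℝ) : ∑ k : Fin G.L, f k = ∑ b : Fin G.n, f b +
    ∑ s ∈ range G.S0, ∑ a ∈ range G.q, ∑ d ∈ range (2 * (G.n + 1)),
      f (G.n + ((s * G.q + a) * (2 * (G.n + 1)) + d)) := by
  rw [Fin.sum_univ_eq_sum_range f, Fin.sum_univ_eq_sum_range f]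
  unfold Dat.L
  rw [sum_range_add, sum_range_mul (fun t => f (G.n + t)), sum_range_mul (fun i =>
    ∑ j ∈ range (2 * (G.n + 1)), f (G.n + (i * (2 * (G.n + 1)) + j)))]

theorem F_sum (c : ℕ → ℝ) (X : Fin G.n → ℝ) (y : Fin G.q → ℝ) :
    G.F c X y = G.F 0 X y + ∑ k : Fin G.L, c k * coefV G k X (ex y) := by
  rw [F_affine, sum_params G fun k => c k * coefV G k X (ex y)]
  congr 2
  · refine sum_congr rfl fun b _ => ?_
    unfold coefV
    rw [dif_pos b.2]
  · refine sum_congr rfl fun s _ => sum_congr rfl fun a ha => sum_congr rfl fun d hd => ?_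
    unfold coefV
    obtain ⟨h1, h2, h3⟩ := decode (n := G.n) (s := s) (mem_range.1 ha) (mem_range.1 hd)
    rw [dif_neg (by omega), h1, h2, h3]

theorem dY_sum (c : ℕ → ℝ) {i : ℕ} (hi : i < G.q) (X : Fin G.n → ℝ) (y : Fin G.q → ℝ) :
    G.dY c i X y = G.dY 0 i X y + ∑ k : Fin G.L, c k * coefY G k i (ex y) := by
  rw [dY_affine G c hi, sum_params G fun k => c k * coefY G k i (ex y)]
  congr 1
  have h0 : ∑ b : Fin G.n, c b * coefY G b i (ex y) = 0 := by
    refine sum_eq_zero fun b _ => ?_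
    unfold coefY
    rw [if_pos b.2, mul_zero]
  rw [h0, zero_add]
  refine sum_congr rfl fun s _ => sum_congr rfl fun a ha => sum_congr rfl fun d hd => ?_
  unfold coefY
  obtain ⟨h1, h2, h3⟩ := decode (n := G.n) (s := s) (mem_range.1 ha) (mem_range.1 hd)
  rw [if_neg (by omega), h1, h2, h3]

end Pool.Agent.T9h94.Iso
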