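import Pool.Agent.T9h85.Iso.P1a

/-! # The parameters which are solved for in a chart -/

set_option autoImplicit false

namespace Pool.Agent.T9h94.Iso

open Finset

theorem sum_emb {R K β : Type} [Fintype R] [Fintype K] [AddCommMonoid β] (emb : R → K)
    (h : Function.Injective emb) (f : K → β) [Fintype {k // k ∉ Set.range emb}] :
    ∑ k, f k = ∑ r, f (emb r) + ∑ k : {k // k ∉ Set.range emb}, f k := by
  classical
  have h1 : ∑ k ∈ Finset.univ.image emb, f k = ∑ r, f (emb r) :=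
    Finset.sum_image fun a _ b _ hab => h hab
  have h2 : ∑ k ∈ (Finset.univ.image emb)ᶜ, f k = ∑ k : {k // k ∉ Set.range emb}, f k :=
    Finset.sum_subtype _ (fun x => by simp) f
  rw [← h1, ← h2, Finset.sum_add_sum_compl]

variable (G : Dat)

/-- the solved parameters of the perturbation -/
abbrev Col (j : ℕ) : Type := Fin (2 * (j + 1)) ⊕ (Fin (G.q - 1) × Fin (j + 1))

/-- the equations -/
abbrev Row (j : ℕ) : Type := Fin (j + 1) ⊕ (Fin (j + 1) × Fin G.q)

def colA {j : ℕ} : Col G j → ℕ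
  | Sum.inl _ => 0
  | Sum.inr p => p.1 + 1

def colD {j : ℕ} : Col G j → ℕ
  | Sum.inl d => d
  | Sum.inr p => p.2

theorem colA_lt {j : ℕ} (c : Col G j) : colA G c < G.q := by
  have := q_pos G
  rcases c with d | ⟨a, d⟩
  · exact this
  · have := a.2
    simp only [colA]
    omega

theorem colD_lt {j : ℕ} (hj : j ≤ G.n) (c : Col G j) : colD G c < 2 * (G.n + 1) := by
  rcases c with d | ⟨a, d⟩
  · have := d.2
    simp only [colD]
    omega
  · have := d.2
    simp only [colD]
    omega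

theorem col_ext {j : ℕ} {c c' : Col G j} (h1 : colA G c = colA G c') (h2 : colD G c = colD G c') :
    c = c' := by
  rcases c with d | ⟨a, d⟩ <;> rcases c' with d' | ⟨a', d'⟩
  · simp only [colD] at h2
    rw [Fin.ext h2]
  · simp only [colA] at h1
    omega
  · simp only [colA] at h1
    omega
  · simp only [colA, colD] at h1 h2
    rw [Fin.ext (show (a : ℕ) = a' by omega), Fin.ext h2]

/-- the number of the solved parameter -/
def colIdx (s : ℕ) {j : ℕ} (c : Col G j) : ℕ :=
  G.n + ((s * G.q + colA G c) * (2 * (G.n + 1)) + colD G c)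

theorem colIdx_lt {s j : ℕ} (hs : s < G.S0) (hj : j ≤ G.n) (c : Col G j) :
    colIdx G s c < G.L := by
  have h1 := colA_lt G c
  have h2 := colD_lt G hj c
  unfold colIdx Dat.L
  have h3 : (s * G.q + colA G c + 1) * (2 * (G.n + 1)) ≤ G.S0 * G.q * (2 * (G.n + 1)) := by
    apply Nat.mul_le_mul_right
    calc s * G.q + colA G c + 1 ≤ s * G.q + G.q := by omega
      _ = (s + 1) * G.q := by ring
      _ ≤ G.S0 * G.q := Nat.mul_le_mul_right _ hs
  rw [add_mul (s * G.q + colA G c) 1, one_mul] at h3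
  omega

/-- the solved parameters -/
def emb {s j : ℕ} (hs : s < G.S0) (hj : j ≤ G.n) : Fin G.n ⊕ Col G j → Fin G.L
  | Sum.inl b => ⟨b, by unfold Dat.L; omega⟩
  | Sum.inr c => ⟨colIdx G s c, colIdx_lt G hs hj c⟩

theorem emb_injective {s j : ℕ} (hs : s < G.S0) (hj : j ≤ G.n) :
    Function.Injective (emb G hs hj) := by
  rintro (b | c) (b' | c') h
  · simp only [emb, Fin.mk.injEq] at h
    rw [Fin.ext h]
  · simp only [emb, Fin.mk.injEq, colIdx] at h
    have := b.2
    omega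
  · simp only [emb, Fin.mk.injEq, colIdx] at h
    have := b'.2
    omega
  · simp only [emb, Fin.mk.injEq] at h
    unfold colIdx at h
    obtain ⟨-, h2, h3⟩ := decode (n := G.n) (s := s) (colA_lt G c) (colD_lt G hj c)
    obtain ⟨-, h5, h6⟩ := decode (n := G.n) (s := s) (colA_lt G c') (colD_lt G hj c')
    rw [h] at h2 h3
    rw [col_ext G (h2.symm.trans h5) (h3.symm.trans h6)]

theorem coefV_inl {s j : ℕ} (hs : s < G.S0) (hj : j ≤ G.n) (b : Fin G.n) (X : Fin G.n → ℝ)
    (y : ℕ → ℝ) : coefV G (emb G hs hj (Sum.inl b)) X y = X b := by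
  change coefV G (b : ℕ) X y = X b
  unfold coefV
  rw [dif_pos b.2]

theorem coefV_inr {s j : ℕ} (hs : s < G.S0) (hj : j ≤ G.n) (c : Col G j) (X : Fin G.n → ℝ)
    (y : ℕ → ℝ) : coefV G (emb G hs hj (Sum.inr c)) X y = E G.q s (colA G c) (colD G c) y := by
  change coefV G (colIdx G s c) X y = _
  unfold coefV colIdx
  obtain ⟨h1, h2, h3⟩ := decode (n := G.n) (s := s) (colA_lt G c) (colD_lt G hj c)
  rw [dif_neg (by omega), h1, h2, h3]

theorem coefY_inl {s j : ℕ} (hs : s < G.S0) (hj : j ≤ G.n) (b : Fin G.n) (k : ℕ) (y : ℕ → ℝ) :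
    coefY G (emb G hs hj (Sum.inl b)) k y = 0 := by
  change coefY G (b : ℕ) k y = 0
  unfold coefY
  rw [if_pos b.2]

theorem coefY_inr {s j : ℕ} (hs : s < G.S0) (hj : j ≤ G.n) (c : Col G j) (k : ℕ) (y : ℕ → ℝ) :
    coefY G (emb G hs hj (Sum.inr c)) k y = E' G.q s (colA G c) (colD G c) k y := by
  change coefY G (colIdx G s c) k y = _
  unfold coefY colIdx
  obtain ⟨h1, h2, h3⟩ := decode (n := G.n) (s := s) (colA_lt G c) (colD_lt G hj c)
  rw [if_neg (by omega), h1, h2, h3]

theorem card_col (j : ℕ) : Fintype.card (Col G j) = (j + 1) * (G.q + 1) := by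
  have := q_pos G
  obtain ⟨q', hq'⟩ : ∃ q', G.q = q' + 1 := ⟨G.q - 1, by omega⟩
  simp only [Fintype.card_sum, Fintype.card_prod, Fintype.card_fin]
  rw [hq', Nat.add_sub_cancel]
  ring

theorem card_row (j : ℕ) : Fintype.card (Row G j) = (j + 1) * (G.q + 1) := by
  simp only [Fintype.card_sum, Fintype.card_prod, Fintype.card_fin]
  ring

/-- the numbering of the equations -/
noncomputable def rowEquiv (j : ℕ) : Col G j ≃ Row G j :=
  Fintype.equivOfCardEq ((card_col G j).trans (card_row G j).symm)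

/-- the coefficients of the linear system for the solved parameters -/
noncomputable def coefA (s : ℕ) {j : ℕ} (y : Fin (j + 1) → Fin G.q → ℝ) : Row G j → Col G j → ℝ
  | Sum.inl i, c => E G.q s (colA G c) (colD G c) (ex (y i))
  | Sum.inr (i, k), c => E' G.q s (colA G c) (colD G c) k (ex (y i))

/-- the matrix -/
noncomputable def matA (s : ℕ) {j : ℕ} (y : Fin (j + 1) → Fin G.q → ℝ) :
    Matrix (Col G j) (Col G j) ℝ := Matrix.of fun r c => coefA G s y (rowEquiv G j r) c

theorem ex_apply {q : ℕ} (y : Fin q → ℝ) (k : Fin q) : ex y k = y k := by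
  unfold ex
  rw [dif_pos k.2]

theorem zs_ex (s : ℕ) (y : Fin G.q → ℝ) :
    zs G.q s (ex y) = ∑ b : Fin G.q, (s : ℝ) ^ (b : ℕ) * y b := by
  unfold zs
  rw [← Fin.sum_univ_eq_sum_range (fun b => (s : ℝ) ^ b * ex y b)]
  refine sum_congr rfl fun b _ => ?_
  rw [ex_apply]

/-- the linear system has one solution at most -/
theorem det_ne_zero (s : ℕ) {j : ℕ} (y : Fin (j + 1) → Fin G.q → ℝ)
    (hy : Function.Injective fun i => ∑ b : Fin G.q, (s : ℝ) ^ (b : ℕ) * y i b) :
    (matA G s y).det ≠ 0 := by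
  intro h0
  obtain ⟨p, hp0, hp⟩ := Matrix.exists_mulVec_eq_zero_iff.2 h0
  apply hp0
  have hrow : ∀ r : Row G j, ∑ c, coefA G s y r c * p c = 0 := by
    intro r
    have := congrFun hp ((rowEquiv G j).symm r)
    rw [Matrix.mulVec, dotProduct] at this
    simpa [matA] using this
  have hq := q_pos G
  set z : Fin (j + 1) → ℝ := fun i => zs G.q s (ex (y i)) with hz
  have hz' : Function.Injective z := by
    have : z = fun i => ∑ b : Fin G.q, (s : ℝ) ^ (b : ℕ) * y i b := by
      funext i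
      exact zs_ex G s (y i)
    rw [this]
    exact hy
  -- the equations, written out
  have hv : ∀ i, ∑ d : Fin (2 * (j + 1)), p (Sum.inl d) * z i ^ (d : ℕ) +
      ∑ a : Fin (G.q - 1), ∑ d : Fin (j + 1), p (Sum.inr (a, d)) *
        (ex (y i) (a + 1) * z i ^ (d : ℕ)) = 0 := by
    intro i
    have := hrow (Sum.inl i)
    rw [Fintype.sum_sum_type, Fintype.sum_prod_type] at this
    refine Eq.trans ?_ this
    congr 1
    · refine sum_congr rfl fun d _ => ?_
      simp only [coefA, E, colA, colD, mn, if_true, hz]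
      ring
    · refine sum_congr rfl fun a _ => sum_congr rfl fun d _ => ?_
      simp only [coefA, E, colA, colD, mn, Nat.succ_ne_zero, if_false, hz]
      ring
  have hg : ∀ i (k : Fin G.q), ∑ d : Fin (2 * (j + 1)), p (Sum.inl d) *
        ((d : ℕ) * z i ^ ((d : ℕ) - 1) * (s : ℝ) ^ (k : ℕ)) +
      ∑ a : Fin (G.q - 1), ∑ d : Fin (j + 1), p (Sum.inr (a, d)) *
        ((if (a : ℕ) + 1 = k then 1 else 0) * z i ^ (d : ℕ) +
          ex (y i) (a + 1) * ((d : ℕ) * z i ^ ((d : ℕ) - 1) * (s : ℝ) ^ (k : ℕ))) = 0 := by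
    intro i k
    have := hrow (Sum.inr (i, k))
    rw [Fintype.sum_sum_type, Fintype.sum_prod_type] at this
    refine Eq.trans ?_ this
    congr 1
    · refine sum_congr rfl fun d _ => ?_
      simp only [coefA, E', colA, colD, mn, if_true, hz, ne_eq, not_true_eq_false, and_false,
        if_false]
      ring
    · refine sum_congr rfl fun a _ => sum_congr rfl fun d _ => ?_
      simp only [coefA, E', colA, colD, mn, Nat.succ_ne_zero, if_false, hz, ne_eq,
        not_false_eq_true, and_true]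
      ring
  have hg0 : ∀ i, ∑ d : Fin (2 * (j + 1)), p (Sum.inl d) * ((d : ℕ) * z i ^ ((d : ℕ) - 1)) +
      ∑ a : Fin (G.q - 1), ∑ d : Fin (j + 1), p (Sum.inr (a, d)) *
        (ex (y i) (a + 1) * ((d : ℕ) * z i ^ ((d : ℕ) - 1))) = 0 := by
    intro i
    have := hg i ⟨0, hq⟩
    simpa using this
  have hga : ∀ i (k : Fin (G.q - 1)), ∑ d : Fin (j + 1), p (Sum.inr (k, d)) * z i ^ (d : ℕ) = 0 := by
    intro i k
    have h1 := hg i ⟨k + 1, by have := k.2; omega⟩
    have h2 := hg0 i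
    simp only at h1
    have h3 : ∑ a : Fin (G.q - 1), ∑ d : Fin (j + 1), p (Sum.inr (a, d)) *
        ((if (a : ℕ) + 1 = (k : ℕ) + 1 then 1 else 0) * z i ^ (d : ℕ)) =
        ∑ d : Fin (j + 1), p (Sum.inr (k, d)) * z i ^ (d : ℕ) := by
      rw [sum_eq_single k]
      · refine sum_congr rfl fun d _ => ?_
        rw [if_pos rfl, one_mul]
      · intro a _ ha
        refine sum_eq_zero fun d _ => ?_
        have : ¬ ((a : ℕ) + 1 = (k : ℕ) + 1) := by
          intro h
          exact ha (Fin.ext (by omega))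
        rw [if_neg this]
        ring
      · intro h
        exact absurd (mem_univ _) h
    have h4 : (∑ d : Fin (2 * (j + 1)), p (Sum.inl d) * ((d : ℕ) * z i ^ ((d : ℕ) - 1)) +
      ∑ a : Fin (G.q - 1), ∑ d : Fin (j + 1), p (Sum.inr (a, d)) *
        (ex (y i) (a + 1) * ((d : ℕ) * z i ^ ((d : ℕ) - 1)))) * (s : ℝ) ^ ((k : ℕ) + 1) = 0 := by
      rw [h2, zero_mul]
    rw [add_mul, sum_mul, sum_mul] at h4
    simp only [mul_add, sum_add_distrib, sum_mul] at h1 h4
    have e1 : ∑ d : Fin (2 * (j + 1)), p (Sum.inl d) *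
        ((d : ℕ) * z i ^ ((d : ℕ) - 1) * (s : ℝ) ^ ((k : ℕ) + 1)) =
        ∑ d : Fin (2 * (j + 1)), p (Sum.inl d) * ((d : ℕ) * z i ^ ((d : ℕ) - 1)) *
          (s : ℝ) ^ ((k : ℕ) + 1) := sum_congr rfl fun d _ => by ring
    have e2 : ∑ a : Fin (G.q - 1), ∑ d : Fin (j + 1), p (Sum.inr (a, d)) *
        (ex (y i) (a + 1) * ((d : ℕ) * z i ^ ((d : ℕ) - 1) * (s : ℝ) ^ ((k : ℕ) + 1))) =
        ∑ a : Fin (G.q - 1), ∑ d : Fin (j + 1), p (Sum.inr (a, d)) *
        (ex (y i) (a + 1) * ((d : ℕ) * z i ^ ((d : ℕ) - 1))) * (s : ℝ) ^ ((k : ℕ) + 1) :=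
      sum_congr rfl fun a _ => sum_congr rfl fun d _ => by ring
    rw [e1, e2] at h1
    linarith
  obtain ⟨r1, r2⟩ := hermite_inj (j + 1) (G.q - 1) z hz' (fun i a => ex (y i) (a + 1))
    (fun d => p (Sum.inl d)) (fun a d => p (Sum.inr (a, d))) hv hg0 hga
  funext c
  rcases c with d | ⟨a, d⟩
  · exact r1 d
  · exact r2 a d

end Pool.Agent.T9h94.Iso
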